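import Pool.Agent.helper86.CM.Defs

/-!
# Quantum cat maps: auxiliary definitions
-/

open scoped BigOperators

namespace Pool.Agent.helper86.CM

noncomputable section

/-- the successive remainders -/
def xs {H : Type} [NormedAddCommGroup H] [InnerProductSpace ℂ H] (P : ℕ → (H →L[ℂ] H)) (ψ : H) :
    ℕ → H
  | 0 => ψ
  | j + 1 => xs P ψ j - P j (xs P ψ j)

/-- the successive components -/
def ps {H : Type} [NormedAddCommGroup H] [InnerProductSpace ℂ H] (P : ℕ → (H →L[ℂ] H)) (ψ : H)
    (j : ℕ) : H := P j (xs P ψ j)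

/-- the symplectic form as a bilinear map -/
def omB (g : ℕ) : Lat g →ₗ[ℤ] Lat g →ₗ[ℤ] ℤ :=
  LinearMap.mk₂ ℤ (fun m n => omega m n)
    (by intro a b c; simp only [omega, Pi.add_apply, ← Finset.sum_add_distrib]
        exact Finset.sum_congr rfl fun i _ => by ring)
    (by intro a b c; simp only [omega, Pi.smul_apply, smul_eq_mul, Finset.mul_sum]
        exact Finset.sum_congr rfl fun i _ => by ring)
    (by intro a b c; simp only [omega, Pi.add_apply, ← Finset.sum_add_distrib]
        exact Finset.sum_congr rfl fun i _ => by ring)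
    (by intro a b c; simp only [omega, Pi.smul_apply, smul_eq_mul, Finset.mul_sum]
        exact Finset.sum_congr rfl fun i _ => by ring)

/-- the unit vector spread on the points divisible by `Q` (to be used for `N = Q ^ 2`) -/
def v0 (g Q N : ℕ) [NeZero N] : St g N :=
  WithLp.toLp 2 (fun x : Fin g → ZMod N =>
    (open Classical in if ∀ i, Q ∣ (x i).val then ((Real.sqrt Q : ℝ) : ℂ)⁻¹ ^ g else 0))

/-- pure scar functions -/
def IsPure {g : ℕ} (p : ℕ) (s : Lat g → ℂ) : Prop :=
  ∃ (Λ : Submodule ℤ (Lat g)) (x : UnitAddTorus (Fin g ⊕ Fin g)),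
    IsSat Λ ∧ (∀ z ∈ Λ, ∀ z' ∈ Λ, omega z z' = 0) ∧
    (∃ C : ℕ, ∀ z ∈ Λ, UnitAddTorus.mFourier ((p ^ C) • z) x = (-1) ^ (qf z).natAbs) ∧
    ∀ n, s n = (open Classical in if n ∈ Λ then UnitAddTorus.mFourier n x else 0)

/-- the joint eigenspace defined by a pure scar function -/
def RR {g N : ℕ} [NeZero N] (s : Lat g → ℂ) : Submodule ℂ (St g N) where
  carrier := {v | ∀ z, s z ≠ 0 → TT z v = s z • v}
  add_mem' := by
    intro v w hv hw z hz
    rw [map_add, hv z hz, hw z hz, smul_add]
  zero_mem' := by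
    intro z _
    simp
  smul_mem' := by
    intro c v hv z hz
    rw [map_smul, hv z hz, smul_comm]

/-- the projection of the rational vector on the joint eigenspace -/
def yy (g Q : ℕ) [NeZero Q] (s : Lat g → ℂ) : St g (Q ^ 2) :=
  (RR (N := Q ^ 2) s).starProjection (v0 g Q (Q ^ 2))

end

end Pool.Agent.helper86.CM
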