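import Pool.Agent.helper35.CM.ME
import Pool.Agent.helper35.CM.LAT
import Pool.Agent.helper58.CM.TW
import Pool.Agent.helper86.CM.Defs2

open scoped BigOperators

namespace Pool.Agent.helper86.CM

noncomputable section

theorem HULL_qf_pow {g : ℕ} (A : Matrix (Fin g ⊕ Fin g) (Fin g ⊕ Fin g) ℤ)
    (hq : ∀ n : Lat g, (2 : ℤ) ∣ qf (A.mulVec n) - qf n) (t : ℕ) (n : Lat g) :
    (-1 : ℂ) ^ (qf ((A ^ t).mulVec n)).natAbs = (-1 : ℂ) ^ (qf n).natAbs := by
  have h0 : (2 : ℤ) ∣ qf ((A ^ t).mulVec n) - qf n := by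
    induction t with
    | zero => simp
    | succ t ih =>
      rw [pow_succ', ← Matrix.mulVec_mulVec]
      have h1 := hq ((A ^ t).mulVec n)
      have := dvd_add h1 ih
      rwa [sub_add_sub_cancel] at this
  have h1 : (Even (qf ((A ^ t).mulVec n)).natAbs ↔ Even (qf n).natAbs) := by
    rw [Int.natAbs_even, Int.natAbs_even]
    have h2 := even_iff_two_dvd.mpr h0
    rw [Int.even_sub] at h2
    exact h2
  rcases Nat.even_or_odd (qf ((A ^ t).mulVec n)).natAbs with ha | ha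
  · rw [ha.neg_one_pow, (h1.mp ha).neg_one_pow]
  · have hb : Odd (qf n).natAbs := by
      rw [← Nat.not_even_iff_odd] at ha ⊢
      exact fun h' => ha (h1.mpr h')
    rw [ha.neg_one_pow, hb.neg_one_pow]

/-- translates of a pure scar function are pure -/
theorem HULL_pure (g p : ℕ) (A : Matrix (Fin g ⊕ Fin g) (Fin g ⊕ Fin g) ℤ)
    (hA : A ∈ Matrix.symplecticGroup (Fin g) ℤ)
    (hq : ∀ n : Lat g, (2 : ℤ) ∣ qf (A.mulVec n) - qf n) (t : ℕ)
    (s : Lat g → ℂ) (hs : IsPure p s) : IsPure p (fun n => s ((A ^ t).mulVec n)) := by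
  classical
  obtain ⟨Λ, x, hsat, hiso, ⟨C, hC⟩, hsn⟩ := hs
  obtain ⟨Ae, hAe1, hAe2, hAe3⟩ := AE g A hA
  have homt : ∀ (t : ℕ) (y z : Lat g), omega ((A ^ t).mulVec y) ((A ^ t).mulVec z) = omega y z := by
    intro t
    induction t with
    | zero => intro y z; simp
    | succ t ih =>
      intro y z
      rw [pow_succ', ← Matrix.mulVec_mulVec, ← Matrix.mulVec_mulVec, ← hAe2, ← hAe2, hAe3, ih]
  refine ⟨Λ.comap ((Ae ^ t : Lat g ≃ₗ[ℤ] Lat g) : Lat g →ₗ[ℤ] Lat g),
    ME_dual (A ^ t).mulVecLin x, ?_, ?_, ⟨C, ?_⟩, ?_⟩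
  · intro a z ha hz
    rw [Submodule.mem_comap] at hz ⊢
    rw [map_smul] at hz
    exact hsat a _ ha hz
  · intro z hz z' hz'
    have h1 : (A ^ t).mulVec z ∈ Λ := by rw [← hAe1]; exact hz
    have h2 : (A ^ t).mulVec z' ∈ Λ := by rw [← hAe1]; exact hz'
    rw [← homt t z z']
    exact hiso _ h1 _ h2
  · intro z hz
    have h1 : (A ^ t).mulVec z ∈ Λ := by rw [← hAe1]; exact hz
    rw [ME_dual_apply]
    have h2 : (A ^ t).mulVecLin (p ^ C • z) = p ^ C • (A ^ t).mulVec z := by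
      rw [map_nsmul]; rfl
    rw [h2, hC _ h1, HULL_qf_pow A hq]
  · intro n
    simp only []
    rw [hsn, ME_dual_apply]
    have h3 : (n ∈ Λ.comap ((Ae ^ t : Lat g ≃ₗ[ℤ] Lat g) : Lat g →ₗ[ℤ] Lat g)) ↔
        (A ^ t).mulVec n ∈ Λ := by
      rw [Submodule.mem_comap, ← hAe1]; rfl
    by_cases h : (A ^ t).mulVec n ∈ Λ
    · rw [if_pos h, if_pos (h3.mpr h)]
      rfl
    · rw [if_neg h, if_neg (fun h' => h (h3.mp h'))]

theorem HULL_single (g p : ℕ) (A : Matrix (Fin g ⊕ Fin g) (Fin g ⊕ Fin g) ℤ)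
    (hA : A ∈ Matrix.symplecticGroup (Fin g) ℤ)
    (hq : ∀ n : Lat g, (2 : ℤ) ∣ qf (A.mulVec n) - qf n) (F : Lat g → ℂ)
    (hF : F ∈ Scars p A) :
    ∃ b : (Lat g → ℂ) →₀ ℝ, (∀ s, 0 ≤ b s) ∧ (b.sum fun _ r => r) = 1 ∧
      (∀ s ∈ b.support, IsPure p s) ∧ (∀ s, b (fun n => s (A.mulVec n)) = b s) ∧
      ∀ n, F n = b.sum fun s r => (r : ℂ) * s n := by
  classical
  obtain ⟨m, Λ, x, hm, hsat, hiso, hinv, hper, ⟨C, hC⟩, hFn⟩ := hF
  obtain ⟨Ae, hAe1, hAe2, hAe3⟩ := AE g A hA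
  set s₀ : Lat g → ℂ := fun n => if n ∈ Λ then UnitAddTorus.mFourier n x else 0 with hs₀
  have hpure0 : IsPure p s₀ := by
    refine ⟨Λ, x, hsat, hiso, ⟨C, hC⟩, ?_⟩
    intro n
    rw [hs₀]
  set σ : ℕ → (Lat g → ℂ) := fun t n => s₀ ((A ^ t).mulVec n) with hσ
  have hσm : σ m = σ 0 := by
    funext n
    simp only [hσ, pow_zero, Matrix.one_mulVec]
    have hmem : (A ^ m).mulVec n ∈ Λ ↔ n ∈ Λ := by
      constructor
      · intro h
        have h2 := sat_symm (Ae ^ m) Λ hsat (fun z hz => by rw [hAe1]; exact hinv z hz) _ h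
        rw [← hAe1, LinearEquiv.symm_apply_apply] at h2
        exact h2
      · exact hinv n
    by_cases h : n ∈ Λ
    · simp only [hs₀, if_pos h, if_pos (hmem.mpr h)]
      exact hper n h
    · simp only [hs₀, if_neg h, if_neg (fun h' => h (hmem.mp h'))]
  have hσsucc : ∀ t, σ (t + 1) = fun n => σ t (A.mulVec n) := by
    intro t
    funext n
    simp only [hσ, pow_succ, Matrix.mulVec_mulVec]
  have hinj : ∀ s s' : Lat g → ℂ, (fun n => s (A.mulVec n)) = (fun n => s' (A.mulVec n)) →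
      s = s' := by
    intro s s' h
    funext n
    have := congrFun h (Ae.symm n)
    simp only [← hAe2, LinearEquiv.apply_symm_apply] at this
    exact this
  have hmpos : (0 : ℝ) < m := by exact_mod_cast hm
  set b : (Lat g → ℂ) →₀ ℝ := ∑ t ∈ Finset.range m, Finsupp.single (σ t) ((m : ℝ)⁻¹) with hb
  have hbs : ∀ s, b s = ∑ t ∈ Finset.range m, if σ t = s then (m : ℝ)⁻¹ else 0 := by
    intro s
    rw [hb, Finsupp.finsetSum_apply]
    apply Finset.sum_congr rfl
    intro t _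
    rw [Finsupp.single_apply]
  refine ⟨b, ?_, ?_, ?_, ?_, ?_⟩
  · intro s
    rw [hbs]
    apply Finset.sum_nonneg
    intro t _
    split_ifs <;> positivity
  · rw [hb, ← Finsupp.sum_finsetSum_index (fun _ => rfl) (fun _ _ _ => rfl)]
    simp only [Finsupp.sum_single_index]
    rw [Finset.sum_const, Finset.card_range, nsmul_eq_mul, mul_inv_cancel₀ hmpos.ne']
  · intro s hs
    rw [Finsupp.mem_support_iff, hbs] at hs
    obtain ⟨t, _, ht⟩ := Finset.exists_ne_zero_of_sum_ne_zero hs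
    have h1 : σ t = s := by
      by_contra hne
      exact ht (if_neg hne)
    rw [← h1]
    exact HULL_pure g p A hA hq t s₀ hpure0
  · intro s
    rw [hbs, hbs]
    have h1 : ∑ t ∈ Finset.range m, (if σ t = (fun n => s (A.mulVec n)) then (m : ℝ)⁻¹ else 0) =
        ∑ t ∈ Finset.range m,
          (if σ (t + 1) = (fun n => s (A.mulVec n)) then (m : ℝ)⁻¹ else 0) := by
      have h2 := Finset.sum_range_succ
        (fun t => if σ t = (fun n => s (A.mulVec n)) then (m : ℝ)⁻¹ else 0) m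
      have h3 := Finset.sum_range_succ'
        (fun t => if σ t = (fun n => s (A.mulVec n)) then (m : ℝ)⁻¹ else 0) m
      rw [h2] at h3
      simp only [hσm] at h3
      linarith
    rw [h1]
    apply Finset.sum_congr rfl
    intro t _
    by_cases h : σ t = s
    · rw [if_pos h, if_pos]
      rw [hσsucc, h]
    · rw [if_neg h, if_neg]
      intro h'
      apply h
      apply hinj
      rw [← h', hσsucc]
  · intro n
    rw [hb, ← Finsupp.sum_finsetSum_index (fun _ => by simp)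
      (fun _ _ _ => by push_cast; ring)]
    simp only [Complex.ofReal_zero, zero_mul, Finsupp.sum_single_index]
    rw [hFn n, Finset.mul_sum]
    apply Finset.sum_congr rfl
    intro t _
    simp only [hσ, hs₀]
    push_cast
    rfl

theorem HULL (g p : ℕ) (A : Matrix (Fin g ⊕ Fin g) (Fin g ⊕ Fin g) ℤ)
    (hA : A ∈ Matrix.symplecticGroup (Fin g) ℤ)
    (hq : ∀ n : Lat g, (2 : ℤ) ∣ qf (A.mulVec n) - qf n) (F : Lat g → ℂ)
    (hF : F ∈ convexHull ℝ (Scars p A)) :
    ∃ b : (Lat g → ℂ) →₀ ℝ, (∀ s, 0 ≤ b s) ∧ ∑ s ∈ b.support, b s = 1 ∧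
      (∀ s ∈ b.support, IsPure p s) ∧ (∀ s, b (fun n => s (A.mulVec n)) = b s) ∧
      ∀ n, F n = ∑ s ∈ b.support, (b s : ℂ) * s n := by
  classical
  suffices h : convexHull ℝ (Scars p A) ⊆ {F : Lat g → ℂ | ∃ b : (Lat g → ℂ) →₀ ℝ,
      (∀ s, 0 ≤ b s) ∧ (b.sum fun _ r => r) = 1 ∧
      (∀ s ∈ b.support, IsPure p s) ∧ (∀ s, b (fun n => s (A.mulVec n)) = b s) ∧
      ∀ n, F n = b.sum fun s r => (r : ℂ) * s n} from h hF
  apply convexHull_min
  · intro F hF
    exact HULL_single g p A hA hq F hF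
  · rintro F ⟨b, h1, h2, h3, h4, h5⟩ F' ⟨b', h1', h2', h3', h4', h5'⟩ a c ha hc hac
    refine ⟨a • b + c • b', ?_, ?_, ?_, ?_, ?_⟩
    · intro s
      simp only [Finsupp.add_apply, Finsupp.smul_apply, smul_eq_mul]
      have := h1 s
      have := h1' s
      positivity
    · rw [Finsupp.sum_add_index' (fun _ => rfl) (fun _ _ _ => rfl),
        Finsupp.sum_smul_index (fun _ => rfl), Finsupp.sum_smul_index (fun _ => rfl),
        ← Finsupp.mul_sum, ← Finsupp.mul_sum, h2, h2', mul_one, mul_one, hac]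
    · intro s hs
      have hs' := Finsupp.support_add hs
      rcases Finset.mem_union.mp hs' with h | h
      · exact h3 s (Finsupp.support_smul h)
      · exact h3' s (Finsupp.support_smul h)
    · intro s
      simp only [Finsupp.add_apply, Finsupp.smul_apply, h4, h4']
    · intro n
      rw [Finsupp.sum_add_index' (fun _ => by simp) (fun _ _ _ => by push_cast; ring),
        Finsupp.sum_smul_index (fun _ => by simp), Finsupp.sum_smul_index (fun _ => by simp)]
      simp only [Pi.add_apply, Pi.smul_apply, Complex.real_smul]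
      rw [h5 n, h5' n, Finsupp.mul_sum, Finsupp.mul_sum]
      congr 1
      · apply Finsupp.sum_congr
        intro s _
        push_cast
        ring
      · apply Finsupp.sum_congr
        intro s _
        push_cast
        ring

end

end Pool.Agent.helper86.CM
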