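import Pool.Agent.helper86.CM.Defs2
import Pool.Agent.helper58.CM.EX
import Pool.Agent.helper35.CM.CL
import Pool.Agent.helper46.CM.CON2
import Pool.Agent.helper86.CM.HULL
import Pool.Agent.helper18.CM.CONU

/-! CT project (MP_07c750_an), proved by helper18: modules CON3 and DIAG. -/

open scoped BigOperators

namespace Pool.Agent.helper86.CM

noncomputable section

/-- transport of the Planck parameter -/
theorem CON3_transport {g N M : ℕ} (h : N = M) (iN : NeZero N) (iM : NeZero M)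
    (A : Matrix (Fin g ⊕ Fin g) (Fin g ⊕ Fin g) ℤ) (F : Lat g → ℂ) (s : Finset (Lat g)) (ε : ℝ)
    (H : ∃ (U : St g N ≃ₗᵢ[ℂ] St g N) (ψ : St g N) (c : ℂ), @IsQuant g N iN A U ∧ ‖ψ‖ = 1 ∧
      U ψ = c • ψ ∧ ∀ n ∈ s, ‖(inner ℂ ψ (@TT g N iN n ψ) : ℂ) - F n‖ ≤ ε) :
    ∃ (U : St g M ≃ₗᵢ[ℂ] St g M) (ψ : St g M) (c : ℂ), @IsQuant g M iM A U ∧ ‖ψ‖ = 1 ∧
      U ψ = c • ψ ∧ ∀ n ∈ s, ‖(inner ℂ ψ (@TT g M iM n ψ) : ℂ) - F n‖ ≤ ε := by
  subst h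
  exact H

theorem CON3_pure_le {g p : ℕ} {s : Lat g → ℂ} (hs : IsPure p s) (n : Lat g) : ‖s n‖ ≤ 1 := by
  classical
  obtain ⟨Λ, x, -, -, -, h⟩ := hs
  rw [h n]
  split_ifs with h1
  · have h2 := ContinuousMap.norm_coe_le_norm (UnitAddTorus.mFourier (d := Fin g ⊕ Fin g) n) x
    rw [UnitAddTorus.mFourier_norm] at h2
    exact h2
  · rw [norm_zero]
    exact zero_le_one

theorem CON3_pure_zero {g p : ℕ} {s : Lat g → ℂ} (hs : IsPure p s) : s 0 = 1 := by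
  classical
  obtain ⟨Λ, x, -, -, -, h⟩ := hs
  rw [h 0, if_pos Λ.zero_mem, UnitAddTorus.mFourier_zero]
  rfl

theorem CON3_TT_zero {g N : ℕ} [NeZero N] (v : St g N) : TT (0 : Lat g) v = v := by
  ext x
  have h : (x + fun _ : Fin g => (0 : ZMod N)) = x := add_zero x
  simp [TT, qf, ee, h]

theorem CON3_inner {g N : ℕ} [NeZero N] (a b : ℂ) (x y : St g N) :
    (inner ℂ (a • x) (b • y) : ℂ) = (starRingEnd ℂ a * b) * inner ℂ x y := by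
  have h : @inner ℂ (St g N) (InnerProductSpace.toInner) (a • x) (b • y)
      = (starRingEnd ℂ a * b) * @inner ℂ (St g N) (InnerProductSpace.toInner) x y := by
    rw [inner_smul_left, inner_smul_right]
    ring
  exact h

theorem CON3_inner_self {g N : ℕ} [NeZero N] (x : St g N) :
    (inner ℂ x x : ℂ) = ((‖x‖ : ℝ) : ℂ) ^ 2 := inner_self_eq_norm_sq_to_K x

theorem CON3_norm_calc {a r F : ℂ} {δ ε : ℝ} (hδ : 0 < δ) (hδ2 : δ ≤ 1 / 2) (hδε : 4 * δ ≤ ε)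
    (hF : ‖F‖ ≤ 1) (h1 : ‖a - F‖ ≤ δ) (h2 : ‖r - 1‖ ≤ δ) : ‖a / r - F‖ ≤ ε := by
  have hr : 1 / 2 ≤ ‖r‖ := by
    have h3 : ‖(1 : ℂ)‖ ≤ ‖r‖ + ‖r - 1‖ := by
      have h4 : (1 : ℂ) = r - (r - 1) := by ring
      calc ‖(1 : ℂ)‖ = ‖r - (r - 1)‖ := by rw [← h4]
        _ ≤ ‖r‖ + ‖r - 1‖ := norm_sub_le _ _
    rw [norm_one] at h3
    linarith
  have hr0 : r ≠ 0 := by
    intro h0
    rw [h0, norm_zero] at hr
    linarith
  have h5 : a / r - F = ((a - F) - (r - 1) * F) / r := by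
    field_simp
    ring
  rw [h5, norm_div, div_le_iff₀ (by linarith)]
  calc ‖(a - F) - (r - 1) * F‖ ≤ ‖a - F‖ + ‖(r - 1) * F‖ := norm_sub_le _ _
    _ ≤ δ + δ * 1 := by
        rw [norm_mul]
        gcongr
    _ = (4 * δ) * (1 / 2) := by ring
    _ ≤ ε * ‖r‖ := by
        apply mul_le_mul hδε hr (by norm_num)
        linarith

/-- the construction at the Planck parameter `Q ^ 2` -/
theorem CON3_main (g p : ℕ) [Fact p.Prime] (hp : p ≠ 2)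
    (A : Matrix (Fin g ⊕ Fin g) (Fin g ⊕ Fin g) ℤ) (hA : A ∈ Matrix.symplecticGroup (Fin g) ℤ)
    (hq : ∀ n : Lat g, (2 : ℤ) ∣ qf (A.mulVec n) - qf n) (F : Lat g → ℂ)
    (hF : F ∈ convexHull ℝ (Scars p A)) (s : Finset (Lat g)) (ε : ℝ) (hε : 0 < ε) :
    ∃ l₀ : ℕ, ∀ l, l₀ ≤ l → ∃ (U : St g ((p ^ l) ^ 2) ≃ₗᵢ[ℂ] St g ((p ^ l) ^ 2))
      (ψ : St g ((p ^ l) ^ 2)) (c : ℂ), IsQuant A U ∧ ‖ψ‖ = 1 ∧ U ψ = c • ψ ∧
      ∀ n ∈ s, ‖(inner ℂ ψ (TT n ψ) : ℂ) - F n‖ ≤ ε := by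
  classical
  obtain ⟨b, hb0, hb1, hbp, hbA, hbF⟩ := HULL g p A hA hq F hF
  set S := b.support with hS
  -- parameters
  set δ : ℝ := min (ε / 4) (1 / 2) with hδ
  have hδ0 : 0 < δ := by rw [hδ]; positivity
  have hδ2 : δ ≤ 1 / 2 := min_le_right _ _
  have hδε : 4 * δ ≤ ε := by
    have := min_le_left (ε / 4) (1 / 2 : ℝ)
    rw [← hδ] at this
    linarith
  set ε' : ℝ := δ / ((S.card : ℝ) * S.card + 1) with hε'
  have hden : 0 < (S.card : ℝ) * S.card + 1 := by positivity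
  have hε'0 : 0 < ε' := div_pos hδ0 hden
  -- all frequencies, with the zero one
  set s0 := insert (0 : Lat g) s with hs0
  -- eventually in l
  have e1 : ∀ σ ∈ S, ∀ᶠ l in Filter.atTop, yy g (p ^ l) σ ≠ 0 := by
    intro σ hσ
    obtain ⟨l₀, h⟩ := CON1 g p hp σ (hbp σ hσ)
    exact Filter.eventually_atTop.mpr ⟨l₀, h⟩
  have e2 : ∀ σ ∈ S, ∀ n ∈ s0, ∀ᶠ l in Filter.atTop,
      inner ℂ (yy g (p ^ l) σ) (TT n (yy g (p ^ l) σ)) = σ n * (‖yy g (p ^ l) σ‖ : ℂ) ^ 2 := by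
    intro σ hσ n _
    obtain ⟨l₀, h⟩ := CON1n g p hp σ (hbp σ hσ) n
    exact Filter.eventually_atTop.mpr ⟨l₀, h⟩
  have e3 : ∀ σ ∈ S, ∀ σ' ∈ S, ∀ n ∈ s0, ∀ᶠ l in Filter.atTop, σ ≠ σ' →
      ‖(inner ℂ (yy g (p ^ l) σ) (TT n (yy g (p ^ l) σ')) : ℂ)‖ ≤
      ε' * ‖yy g (p ^ l) σ‖ * ‖yy g (p ^ l) σ'‖ := by
    intro σ hσ σ' hσ' n _
    by_cases hne : σ = σ'
    · exact Filter.Eventually.of_forall fun l h => absurd hne h
    · obtain ⟨l₀, h⟩ := CON2 g p hp σ σ' (hbp σ hσ) (hbp σ' hσ') hne n ε' hε'0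
      exact Filter.eventually_atTop.mpr ⟨l₀, fun l hl _ => h l hl⟩
  have E1 : ∀ᶠ l in Filter.atTop, ∀ σ ∈ S, yy g (p ^ l) σ ≠ 0 :=
    (Filter.eventually_all_finset S).mpr e1
  have E2 : ∀ᶠ l in Filter.atTop, ∀ σ ∈ S, ∀ n ∈ s0,
      inner ℂ (yy g (p ^ l) σ) (TT n (yy g (p ^ l) σ)) = σ n * (‖yy g (p ^ l) σ‖ : ℂ) ^ 2 :=
    (Filter.eventually_all_finset S).mpr fun σ hσ =>
      (Filter.eventually_all_finset s0).mpr (e2 σ hσ)
  have E3 : ∀ᶠ l in Filter.atTop, ∀ σ ∈ S, ∀ σ' ∈ S, ∀ n ∈ s0, σ ≠ σ' →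
      ‖(inner ℂ (yy g (p ^ l) σ) (TT n (yy g (p ^ l) σ')) : ℂ)‖ ≤
      ε' * ‖yy g (p ^ l) σ‖ * ‖yy g (p ^ l) σ'‖ :=
    (Filter.eventually_all_finset S).mpr fun σ hσ =>
      (Filter.eventually_all_finset S).mpr fun σ' hσ' =>
      (Filter.eventually_all_finset s0).mpr (e3 σ hσ σ' hσ')
  obtain ⟨l₀, hl₀⟩ := Filter.eventually_atTop.mp (E1.and (E2.and E3))
  refine ⟨l₀, fun l hl => ?_⟩
  obtain ⟨h1, h2, h3⟩ := hl₀ l hl
  obtain ⟨U, hU⟩ := EX g ((p ^ l) ^ 2) A hA hq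
  obtain ⟨κ, hκ, hκU⟩ := CONU g (p ^ l) A hA hq U hU
  -- the vectors
  set Y : (Lat g → ℂ) → St g ((p ^ l) ^ 2) := fun σ => yy g (p ^ l) σ with hY
  set c : (Lat g → ℂ) → ℂ := fun σ => ((Real.sqrt (b σ) : ℝ) : ℂ) * ((‖Y σ‖ : ℝ) : ℂ)⁻¹ with hc
  set ψ₀ : St g ((p ^ l) ^ 2) := ∑ σ ∈ S, c σ • Y σ with hψ₀
  set T : (Lat g → ℂ) → (Lat g → ℂ) := fun σ n => σ (A.mulVec n) with hT
  have hYT : ∀ σ, U (Y σ) = κ • Y (T σ) := fun σ => hκU σ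
  have hnY : ∀ σ, ‖Y (T σ)‖ = ‖Y σ‖ := by
    intro σ
    have h4 := congrArg norm (hYT σ)
    rw [LinearIsometryEquiv.norm_map, norm_smul, hκ, one_mul] at h4
    exact h4.symm
  have hcT : ∀ σ, c (T σ) = c σ := by
    intro σ
    show ((Real.sqrt (b (T σ)) : ℝ) : ℂ) * ((‖Y (T σ)‖ : ℝ) : ℂ)⁻¹ = _
    rw [hnY, show b (T σ) = b σ from hbA σ]
  have hTinj : Function.Injective T := by
    intro σ σ' h
    funext w
    obtain ⟨z, rfl⟩ := CONU_surj hA w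
    exact congrFun h z
  have hTS : S.image T = S := by
    apply Finset.eq_of_subset_of_card_le
    · intro τ hτ
      obtain ⟨σ, hσ, rfl⟩ := Finset.mem_image.mp hτ
      rw [hS, Finsupp.mem_support_iff] at hσ ⊢
      rw [show b (T σ) = b σ from hbA σ]
      exact hσ
    · rw [Finset.card_image_of_injective _ hTinj]
  have hUψ : U ψ₀ = κ • ψ₀ := by
    rw [hψ₀, map_sum, Finset.smul_sum]
    calc ∑ σ ∈ S, U (c σ • Y σ) = ∑ σ ∈ S, κ • (c (T σ) • Y (T σ)) := by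
          apply Finset.sum_congr rfl
          intro σ _
          rw [map_smul, hYT, hcT, smul_comm]
      _ = ∑ τ ∈ S.image T, κ • (c τ • Y τ) := by
          rw [Finset.sum_image (fun a _ b _ h => hTinj h)]
      _ = ∑ σ ∈ S, κ • (c σ • Y σ) := by rw [hTS]
  -- inner products
  have hsb : ∀ σ ∈ S, ‖((Real.sqrt (b σ) : ℝ) : ℂ)‖ ≤ 1 := by
    intro σ hσ
    rw [Complex.norm_real, Real.norm_eq_abs, abs_of_nonneg (Real.sqrt_nonneg _)]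
    apply Real.sqrt_le_one.mpr
    rw [← hb1]
    exact Finset.single_le_sum (fun τ _ => hb0 τ) hσ
  have hexp : ∀ n, (inner ℂ ψ₀ (TT n ψ₀) : ℂ) = ∑ σ ∈ S, ∑ σ' ∈ S,
      (starRingEnd ℂ (c σ) * c σ') * inner ℂ (Y σ) (TT n (Y σ')) := by
    intro n
    rw [hψ₀, map_sum, sum_inner]
    apply Finset.sum_congr rfl
    intro σ _
    rw [inner_sum]
    apply Finset.sum_congr rfl
    intro σ' _
    rw [map_smul]
    exact CON3_inner _ _ _ _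
  have hcc : ∀ σ, starRingEnd ℂ (c σ) = c σ := by
    intro σ
    rw [hc]
    simp only [map_mul, map_inv₀, Complex.conj_ofReal]
  have hterm : ∀ n ∈ s0, ‖(inner ℂ ψ₀ (TT n ψ₀) : ℂ) - F n‖ ≤ δ := by
    intro n hn
    have hdiag : ∀ σ ∈ S, (starRingEnd ℂ (c σ) * c σ) * inner ℂ (Y σ) (TT n (Y σ))
        = (b σ : ℂ) * σ n := by
      intro σ hσ
      rw [hcc, h2 σ hσ n hn]
      have hne : ((‖Y σ‖ : ℝ) : ℂ) ≠ 0 := by
        rw [Complex.ofReal_ne_zero, norm_ne_zero_iff]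
        exact h1 σ hσ
      show ((Real.sqrt (b σ) : ℝ) : ℂ) * ((‖Y σ‖ : ℝ) : ℂ)⁻¹
        * (((Real.sqrt (b σ) : ℝ) : ℂ) * ((‖Y σ‖ : ℝ) : ℂ)⁻¹) * (σ n * ((‖Y σ‖ : ℝ) : ℂ) ^ 2) = _
      have hsq : ((Real.sqrt (b σ) : ℝ) : ℂ) * ((Real.sqrt (b σ) : ℝ) : ℂ) = (b σ : ℂ) := by
        rw [← Complex.ofReal_mul, Real.mul_self_sqrt (hb0 σ)]
      field_simp
      rw [← hsq]
      ring
    have hsplit : (inner ℂ ψ₀ (TT n ψ₀) : ℂ) - F n = ∑ σ ∈ S, ∑ σ' ∈ S,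
        if σ = σ' then 0 else (starRingEnd ℂ (c σ) * c σ') * inner ℂ (Y σ) (TT n (Y σ')) := by
      rw [hexp n, hbF n, ← Finset.sum_sub_distrib]
      apply Finset.sum_congr rfl
      intro σ hσ
      rw [← hdiag σ hσ, ← Finset.add_sum_erase S _ hσ, ← Finset.add_sum_erase S
        (fun σ' => if σ = σ' then (0 : ℂ) else (starRingEnd ℂ (c σ) * c σ')
          * inner ℂ (Y σ) (TT n (Y σ'))) hσ]
      simp only [if_true, zero_add, add_sub_cancel_left]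
      apply Finset.sum_congr rfl
      intro σ' hσ'
      rw [if_neg (Ne.symm (Finset.ne_of_mem_erase hσ'))]
    rw [hsplit]
    calc _ ≤ ∑ σ ∈ S, ‖∑ σ' ∈ S,
        if σ = σ' then 0 else (starRingEnd ℂ (c σ) * c σ') * inner ℂ (Y σ) (TT n (Y σ'))‖ :=
          norm_sum_le _ _
      _ ≤ ∑ σ ∈ S, ∑ σ' ∈ S, ε' := by
          apply Finset.sum_le_sum
          intro σ hσ
          refine (norm_sum_le _ _).trans (Finset.sum_le_sum fun σ' hσ' => ?_)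
          split_ifs with h
          · rw [norm_zero]; exact hε'0.le
          · have h4 := h3 σ hσ σ' hσ' n hn h
            have n1 : 0 < ‖Y σ‖ := norm_pos_iff.mpr (h1 σ hσ)
            have n2 : 0 < ‖Y σ'‖ := norm_pos_iff.mpr (h1 σ' hσ')
            have c1 : ‖c σ‖ ≤ ‖Y σ‖⁻¹ := by
              show ‖((Real.sqrt (b σ) : ℝ) : ℂ) * ((‖Y σ‖ : ℝ) : ℂ)⁻¹‖ ≤ _
              rw [norm_mul, norm_inv, Complex.norm_real (‖Y σ‖), norm_norm]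
              calc _ ≤ 1 * ‖Y σ‖⁻¹ := by
                    apply mul_le_mul_of_nonneg_right (hsb σ hσ) (by positivity)
                _ = _ := one_mul _
            have c2 : ‖c σ'‖ ≤ ‖Y σ'‖⁻¹ := by
              show ‖((Real.sqrt (b σ') : ℝ) : ℂ) * ((‖Y σ'‖ : ℝ) : ℂ)⁻¹‖ ≤ _
              rw [norm_mul, norm_inv, Complex.norm_real (‖Y σ'‖), norm_norm]
              calc _ ≤ 1 * ‖Y σ'‖⁻¹ := by
                    apply mul_le_mul_of_nonneg_right (hsb σ' hσ') (by positivity)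
                _ = _ := one_mul _
            rw [hcc, norm_mul, norm_mul]
            calc ‖c σ‖ * ‖c σ'‖ * ‖(inner ℂ (Y σ) (TT n (Y σ')) : ℂ)‖
                ≤ ‖Y σ‖⁻¹ * ‖Y σ'‖⁻¹ * (ε' * ‖Y σ‖ * ‖Y σ'‖) := by
                  apply mul_le_mul _ h4 (norm_nonneg _) (by positivity)
                  exact mul_le_mul c1 c2 (norm_nonneg _) (by positivity)
              _ = ε' := by field_simp
      _ = (S.card : ℝ) * S.card * ε' := by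
          rw [Finset.sum_const, Finset.sum_const, nsmul_eq_mul, nsmul_eq_mul]
          ring
      _ ≤ ((S.card : ℝ) * S.card + 1) * ε' := by
          apply mul_le_mul_of_nonneg_right (by linarith) hε'0.le
      _ = δ := by
          rw [hε']
          field_simp
  -- the norm
  have hF0 : F 0 = 1 := by
    rw [hbF 0]
    have : ∑ σ ∈ S, (b σ : ℂ) * σ 0 = ((∑ σ ∈ S, b σ : ℝ) : ℂ) := by
      push_cast
      apply Finset.sum_congr rfl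
      intro σ hσ
      rw [CON3_pure_zero (hbp σ hσ), mul_one]
    rw [this, hb1]
    norm_num
  have hnorm : ‖((‖ψ₀‖ : ℝ) : ℂ) ^ 2 - 1‖ ≤ δ := by
    have h4 := hterm 0 (Finset.mem_insert_self _ _)
    have h6 : (inner ℂ ψ₀ ψ₀ : ℂ) = ((‖ψ₀‖ : ℝ) : ℂ) ^ 2 := CON3_inner_self ψ₀
    rw [CON3_TT_zero, hF0, h6] at h4
    exact h4
  have hψ0 : ψ₀ ≠ 0 := by
    intro h0
    rw [h0, norm_zero] at hnorm
    norm_num at hnorm
    linarith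
  have hn0 : (‖ψ₀‖ : ℝ) ≠ 0 := norm_ne_zero_iff.mpr hψ0
  have hn0' : ((‖ψ₀‖ : ℝ) : ℂ) ≠ 0 := Complex.ofReal_ne_zero.mpr hn0
  refine ⟨U, ((‖ψ₀‖ : ℝ) : ℂ)⁻¹ • ψ₀, κ, hU, ?_, ?_, ?_⟩
  · rw [norm_smul, norm_inv, Complex.norm_real, norm_norm, inv_mul_cancel₀ hn0]
  · rw [map_smul, hUψ, smul_comm]
  · intro n hn
    have hn' : n ∈ s0 := Finset.mem_insert_of_mem hn
    have hFn : ‖F n‖ ≤ 1 := by
      rw [hbF n]
      calc _ ≤ ∑ σ ∈ S, ‖(b σ : ℂ) * σ n‖ := norm_sum_le _ _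
        _ ≤ ∑ σ ∈ S, b σ := by
            apply Finset.sum_le_sum
            intro σ hσ
            rw [norm_mul, Complex.norm_real, Real.norm_eq_abs, abs_of_nonneg (hb0 σ)]
            calc b σ * ‖σ n‖ ≤ b σ * 1 :=
                  mul_le_mul_of_nonneg_left (CON3_pure_le (hbp σ hσ) n) (hb0 σ)
              _ = b σ := mul_one _
        _ = 1 := hb1
    have h5 : (inner ℂ (((‖ψ₀‖ : ℝ) : ℂ)⁻¹ • ψ₀) (TT n (((‖ψ₀‖ : ℝ) : ℂ)⁻¹ • ψ₀)) : ℂ)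
        = inner ℂ ψ₀ (TT n ψ₀) / ((‖ψ₀‖ : ℝ) : ℂ) ^ 2 := by
      rw [map_smul]
      refine (CON3_inner _ _ _ _).trans ?_
      rw [map_inv₀, Complex.conj_ofReal]
      field_simp
    rw [h5]
    exact CON3_norm_calc hδ0 hδ2 hδε hFn (hterm n hn') hnorm

/-- a convex combination of scar functions is approximated at the Planck parameters `p ^ (2 l)` -/
theorem CON3 (g p : ℕ) [Fact p.Prime] (hp : p ≠ 2)
    (A : Matrix (Fin g ⊕ Fin g) (Fin g ⊕ Fin g) ℤ) (hA : A ∈ Matrix.symplecticGroup (Fin g) ℤ)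
    (hq : ∀ n : Lat g, (2 : ℤ) ∣ qf (A.mulVec n) - qf n) (F : Lat g → ℂ)
    (hF : F ∈ convexHull ℝ (Scars p A)) (s : Finset (Lat g)) (ε : ℝ) (hε : 0 < ε) :
    ∃ l₀ : ℕ, ∀ l, l₀ ≤ l → ∃ (U : St g (p ^ (2 * l)) ≃ₗᵢ[ℂ] St g (p ^ (2 * l)))
      (ψ : St g (p ^ (2 * l))) (c : ℂ), IsQuant A U ∧ ‖ψ‖ = 1 ∧ U ψ = c • ψ ∧
      ∀ n ∈ s, ‖(inner ℂ ψ (TT n ψ) : ℂ) - F n‖ ≤ ε := by
  obtain ⟨l₀, h⟩ := CON3_main g p hp A hA hq F hF s ε hε
  refine ⟨l₀, fun l hl => ?_⟩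
  have hN : (p ^ l) ^ 2 = p ^ (2 * l) := by
    rw [← pow_mul, mul_comm]
  exact CON3_transport hN inferInstance inferInstance A F s ε (h l hl)

end

end Pool.Agent.helper86.CM
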