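import Pool.Agent.helper86.CM.Defs2
import Pool.Agent.helper58.CM.EX
import Pool.Agent.helper35.CM.CL
import Pool.Agent.helper46.CM.CON2
import Pool.Agent.helper86.CM.HULL
import Pool.Agent.helper86.CM.CON3

/-! CT project (MP_07c750_an), proved by helper18: module DIAG: diagonal argument. -/

open scoped BigOperators

namespace Pool.Agent.helper86.CM

noncomputable section

/-- diagonal argument -/
theorem DIAG (g p : ℕ) [Fact p.Prime] (hp : p ≠ 2)
    (A : Matrix (Fin g ⊕ Fin g) (Fin g ⊕ Fin g) ℤ) (hA : A ∈ Matrix.symplecticGroup (Fin g) ℤ)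
    (hq : ∀ n : Lat g, (2 : ℤ) ∣ qf (A.mulVec n) - qf n) (F : Lat g → ℂ)
    (hF : F ∈ closure (convexHull ℝ (Scars p A))) : IsLimit p A F := by
  classical
  obtain ⟨e, he⟩ := exists_surjective_nat (Lat g)
  have hpos : ∀ j : ℕ, (0 : ℝ) < 1 / ((j : ℝ) + 1) := fun j => by positivity
  have key : ∀ j : ℕ, ∃ l : ℕ, j ≤ l ∧ ∃ (U : St g (p ^ (2 * l)) ≃ₗᵢ[ℂ] St g (p ^ (2 * l)))
      (ψ : St g (p ^ (2 * l))) (c : ℂ), IsQuant A U ∧ ‖ψ‖ = 1 ∧ U ψ = c • ψ ∧
      ∀ n ∈ (Finset.range (j + 1)).image e,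
        ‖(inner ℂ ψ (TT n ψ) : ℂ) - F n‖ ≤ 2 * (1 / ((j : ℝ) + 1)) := by
    intro j
    obtain ⟨G, hG, hFG⟩ := (CL _ F).mp hF ((Finset.range (j + 1)).image e) _ (hpos j)
    obtain ⟨l₀, hl₀⟩ := CON3 g p hp A hA hq G hG ((Finset.range (j + 1)).image e) _ (hpos j)
    obtain ⟨U, ψ, c, h1, h2, h3, h4⟩ := hl₀ (max l₀ j) (le_max_left _ _)
    refine ⟨max l₀ j, le_max_right _ _, U, ψ, c, h1, h2, h3, fun n hn => ?_⟩
    have h5 := h4 n hn
    have h6 := hFG n hn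
    have h7 : (inner ℂ ψ (TT n ψ) : ℂ) - F n
        = ((inner ℂ ψ (TT n ψ) : ℂ) - G n) - (F n - G n) := by ring
    rw [h7]
    refine (norm_sub_le _ _).trans ?_
    linarith
  choose l hl U ψ c h1 h2 h3 h4 using key
  refine ⟨fun j => 2 * l j, U, ψ, c, ?_, h1, h2, h3, ?_⟩
  · apply Filter.tendsto_atTop_mono (f := fun j : ℕ => j) (fun j => ?_) Filter.tendsto_id
    have := hl j
    show j ≤ 2 * l j
    omega
  · intro n
    obtain ⟨i, rfl⟩ := he n
    rw [tendsto_iff_norm_sub_tendsto_zero]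
    have hlim : Filter.Tendsto (fun j : ℕ => 2 * (1 / ((j : ℝ) + 1))) Filter.atTop (nhds 0) := by
      have := (tendsto_one_div_add_atTop_nhds_zero_nat (𝕜 := ℝ)).const_mul 2
      rwa [mul_zero] at this
    refine squeeze_zero' (Filter.Eventually.of_forall fun j => norm_nonneg _) ?_ hlim
    refine Filter.eventually_atTop.mpr ⟨i, fun j hj => ?_⟩
    apply h4 j (e i)
    exact Finset.mem_image.mpr ⟨i, Finset.mem_range.mpr (by omega), rfl⟩

end

end Pool.Agent.helper86.CM
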