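import Mathlib

/-!
# Quantum cat maps: definitions

Concrete part: the Weyl operators `TT n` on `ℂ^((ℤ/N)^g)`, quantizations of an integer symplectic
matrix, quantum limits along the powers of a fixed prime, and scar functions.

Abstract part: Weyl systems over a lattice, saturated submodules, orbit lattices, characters of
bounded order.
-/

open scoped BigOperators

namespace Pool.Agent.helper86.CM

noncomputable section

/-- `exp (2 π i x)`. -/
def ee (x : ℝ) : ℂ := Complex.exp (2 * Real.pi * Complex.I * x)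

/-! ### Concrete objects -/

/-- The lattice of frequencies of the torus of dimension `2 g`. -/
abbrev Lat (g : ℕ) := (Fin g ⊕ Fin g) → ℤ

/-- The standard symplectic form on the lattice. -/
def omega {g : ℕ} (m n : Lat g) : ℤ :=
  ∑ i, (m (Sum.inl i) * n (Sum.inr i) - m (Sum.inr i) * n (Sum.inl i))

/-- The quadratic form `n ↦ n₁ · n₂`. -/
def qf {g : ℕ} (n : Lat g) : ℤ := ∑ i, n (Sum.inl i) * n (Sum.inr i)

/-- The space of quantum states: functions on `(ℤ/N)^g`. -/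
abbrev St (g N : ℕ) := EuclideanSpace ℂ (Fin g → ZMod N)

/-- The Weyl operator (quantum translation) with frequency `n = (n₁, n₂)`:
`(TT n ψ)(x) = exp(2πi n₁·n₂/(2N)) exp(2πi n₂·x/N) ψ(x + n₁)`. -/
def TT {g N : ℕ} [NeZero N] (n : Lat g) : St g N →ₗ[ℂ] St g N where
  toFun ψ := WithLp.toLp 2 (fun x : Fin g → ZMod N =>
    ee ((qf n : ℝ) / (2 * N)) *
      ZMod.stdAddChar (∑ i, ((n (Sum.inr i) : ℤ) : ZMod N) * x i) *
        ψ (x + fun i => ((n (Sum.inl i) : ℤ) : ZMod N)))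
  map_add' ψ φ := by
    ext x
    simp [mul_add]
  map_smul' c ψ := by
    ext x
    simp
    ring

/-- The unitary map `U` is a quantization of the matrix `A` (exact Egorov property):
`U⁻¹ T(n) U = T(A n)` for every frequency `n`. -/
def IsQuant {g N : ℕ} [NeZero N] (A : Matrix (Fin g ⊕ Fin g) (Fin g ⊕ Fin g) ℤ)
    (U : St g N ≃ₗᵢ[ℂ] St g N) : Prop :=
  ∀ (n : Lat g) (ψ : St g N), TT n (U ψ) = U (TT (A.mulVec n) ψ)

/-- The function `F` on the lattice of frequencies is a limit of the Wigner transforms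
`n ↦ ⟨ψ_j, T(n) ψ_j⟩` of unit eigenvectors `ψ_j` of quantizations of `A`, the Planck parameters
`N = p ^ (k j)` being powers of `p` which tend to infinity. -/
def IsLimit {g : ℕ} (p : ℕ) [Fact p.Prime] (A : Matrix (Fin g ⊕ Fin g) (Fin g ⊕ Fin g) ℤ)
    (F : Lat g → ℂ) : Prop :=
  ∃ (k : ℕ → ℕ) (U : ∀ j, St g (p ^ k j) ≃ₗᵢ[ℂ] St g (p ^ k j)) (ψ : ∀ j, St g (p ^ k j))
    (c : ℕ → ℂ),
    Filter.Tendsto k Filter.atTop Filter.atTop ∧ (∀ j, IsQuant A (U j)) ∧ (∀ j, ‖ψ j‖ = 1) ∧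
    (∀ j, U j (ψ j) = c j • ψ j) ∧
    ∀ n : Lat g, Filter.Tendsto (fun j => inner ℂ (ψ j) (TT n (ψ j))) Filter.atTop (nhds (F n))

/-- `Λ` is saturated (primitive): if a nonzero multiple of `z` is in `Λ`, then `z` is in `Λ`. -/
def IsSat {L : Type} [AddCommGroup L] (Λ : Submodule ℤ L) : Prop :=
  ∀ (a : ℤ) (z : L), a ≠ 0 → a • z ∈ Λ → z ∈ Λ

/-- The scar functions of `A` for the prime `p`. Such a function is given by `m ≥ 1`, a saturated
isotropic sublattice `Λ` with `A ^ m Λ ⊆ Λ` and a point `x` of the torus such that the character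
`z ↦ e(z·x)` of `Λ` is invariant under `A ^ m` and satisfies `e(p^C z·x) = (-1)^(q(z))` on `Λ` for
some `C`; it is the function `n ↦ (1/m) Σ_{t<m} [A^t n ∈ Λ] e(A^t n · x)`, which is the Fourier
transform of the mean over an orbit of the Haar measure of the coset `x + Λ^⊥`. -/
def Scars {g : ℕ} (p : ℕ) (A : Matrix (Fin g ⊕ Fin g) (Fin g ⊕ Fin g) ℤ) : Set (Lat g → ℂ) :=
  {f | ∃ (m : ℕ) (Λ : Submodule ℤ (Lat g)) (x : UnitAddTorus (Fin g ⊕ Fin g)),
    0 < m ∧ IsSat Λ ∧ (∀ z ∈ Λ, ∀ z' ∈ Λ, omega z z' = 0) ∧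
    (∀ z ∈ Λ, (A ^ m).mulVec z ∈ Λ) ∧
    (∀ z ∈ Λ, UnitAddTorus.mFourier ((A ^ m).mulVec z) x = UnitAddTorus.mFourier z x) ∧
    (∃ C : ℕ, ∀ z ∈ Λ, UnitAddTorus.mFourier ((p ^ C) • z) x = (-1) ^ (qf z).natAbs) ∧
    ∀ n, f n = (m : ℂ)⁻¹ * ∑ t ∈ Finset.range m,
      (open Classical in if (A ^ t).mulVec n ∈ Λ then
        UnitAddTorus.mFourier ((A ^ t).mulVec n) x else 0)}

/-! ### Abstract objects -/

/-- An abstract Weyl system over the lattice `L` with form `om` and Planck parameter `N`. -/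
structure Weyl {L : Type} [AddCommGroup L] (om : L →ₗ[ℤ] L →ₗ[ℤ] ℤ) (H : Type)
    [NormedAddCommGroup H] [InnerProductSpace ℂ H] (N : ℕ) where
  /-- the Weyl operators -/
  T : L → (H →ₗ[ℂ] H)
  zero : ∀ v, T 0 v = v
  mul : ∀ m n v, T m (T n v) = ee ((om m n : ℝ) / (2 * N)) • T (m + n) v
  norm : ∀ n v, ‖T n v‖ = ‖v‖
  per : ∀ n v, T ((2 * N) • n) v = v
  alt : ∀ z, om z z = 0

section

variable {L : Type} [AddCommGroup L]

/-- The vectors fixed by all `T (a z)`, `z ∈ Λ`. -/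
def KK {om : L →ₗ[ℤ] L →ₗ[ℤ] ℤ} {H : Type} [NormedAddCommGroup H] [InnerProductSpace ℂ H] {N : ℕ}
    (W : Weyl om H N) (Λ : Submodule ℤ L) (a : ℕ) : Submodule ℂ H where
  carrier := {v | ∀ z ∈ Λ, W.T (a • z) v = v}
  add_mem' := by
    intro v w hv hw z hz
    simp [hv z hz, hw z hz]
  zero_mem' := by
    intro z _
    simp
  smul_mem' := by
    intro c v hv z hz
    simp [hv z hz]

/-- No nonzero vector has a finite orbit. -/
def Erg (B : L ≃ₗ[ℤ] L) : Prop := ∀ m : ℕ, 1 ≤ m → ∀ z, (B ^ m) z = z → z = 0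

/-- The saturation of a submodule. -/
def satur (M : Submodule ℤ L) : Submodule ℤ L where
  carrier := {z | ∃ a : ℤ, a ≠ 0 ∧ a • z ∈ M}
  add_mem' := by
    rintro z w ⟨a, ha, haz⟩ ⟨b, hb, hbw⟩
    refine ⟨a * b, mul_ne_zero ha hb, ?_⟩
    rw [smul_add]
    refine M.add_mem ?_ ?_
    · rw [mul_comm, mul_smul]
      exact M.smul_mem b haz
    · rw [mul_smul]
      exact M.smul_mem a hbw
  zero_mem' := ⟨1, one_ne_zero, by simp⟩
  smul_mem' := by
    rintro c z ⟨a, ha, haz⟩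
    refine ⟨a, ha, ?_⟩
    rw [smul_comm]
    exact M.smul_mem c haz

/-- The saturated sublattice generated by the orbit of `n`. -/
def Lam (B : L ≃ₗ[ℤ] L) (n : L) : Submodule ℤ L :=
  satur (Submodule.span ℤ (Set.range fun t : ℤ => (B ^ t) n))

/-- Saturated sublattices invariant under a power of `B` are invariant under `B`. -/
def MPr (B : L ≃ₗ[ℤ] L) : Prop :=
  ∀ h : ℕ, 1 ≤ h → ∀ M : Submodule ℤ L, IsSat M → (∀ z ∈ M, (B ^ h) z ∈ M) → ∀ z ∈ M, B z ∈ M

/-- `Λ` is isotropic for the form `om`. -/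
def Iso (om : L →ₗ[ℤ] L →ₗ[ℤ] ℤ) (Λ : Submodule ℤ L) : Prop :=
  ∀ x ∈ Λ, ∀ y ∈ Λ, om x y = 0

/-- Arithmetic data: `B ^ e = 1 + 2 p^i X` with `X` invertible up to `p^c u`, `u` prime to `p`. -/
structure ARdata (p : ℕ) (B : L ≃ₗ[ℤ] L) (c i e u : ℕ) (X : L →ₗ[ℤ] L) : Prop where
  one_le : 1 ≤ e
  pow : ∀ z, (B ^ e) z = z + (2 * p ^ i) • X z
  comm : ∀ z, X (B z) = B (X z)
  cop : u.Coprime p
  inv : ∀ Λ : Submodule ℤ L, IsSat Λ → (∀ z ∈ Λ, B z ∈ Λ) →
    ∀ z ∈ Λ, ∃ z' ∈ Λ, X z' = (p ^ c * u) • z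

/-- The characters of `L` killed by `M`. -/
def Chi (M : ℕ) (L : Type) [AddCommGroup L] : Type := {χ : AddChar L ℂ // ∀ z, χ (M • z) = 1}

end

/-- There are finitely many characters killed by `M`. -/
theorem Chi_finite (M : ℕ) (hM : M ≠ 0) (L : Type) [AddCommGroup L] [Module.Finite ℤ L] :
    Finite (Chi M L) := by
  obtain ⟨s, hs⟩ := (inferInstance : Module.Finite ℤ L).fg_top
  have : Finite {x : ℂ // x ^ M = 1} := by
    have hM' : 0 < M := Nat.pos_of_ne_zero hM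
    refine Set.Finite.to_subtype (s := {x : ℂ | x ^ M = 1}) ?_
    refine Set.Finite.subset (Polynomial.nthRootsFinset M (1 : ℂ)).finite_toSet ?_
    intro x hx
    simp only [Finset.mem_coe]
    rw [Polynomial.mem_nthRootsFinset hM']
    exact hx
  let f : Chi M L → ({z // z ∈ s} → {x : ℂ // x ^ M = 1}) := fun χ z =>
    ⟨χ.1 z.1, by
      have h := χ.2 z.1
      rwa [AddChar.map_nsmul_eq_pow] at h⟩
  refine Finite.of_injective f ?_
  intro χ χ' h
  apply Subtype.ext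
  have key : ∀ z : L, χ.1 z = χ'.1 z := by
    intro z
    have hz : z ∈ Submodule.span ℤ (s : Set L) := by rw [hs]; trivial
    induction hz using Submodule.span_induction with
    | mem x hx =>
      have := congrFun h ⟨x, hx⟩
      exact congrArg Subtype.val this
    | zero => simp
    | add x y _ _ hx hy => rw [AddChar.map_add_eq_mul, AddChar.map_add_eq_mul, hx, hy]
    | smul a x _ hx => rw [AddChar.map_zsmul_eq_zpow, AddChar.map_zsmul_eq_zpow, hx]
  exact DFunLike.ext _ _ key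

noncomputable instance Chi_fintype (M : ℕ) [NeZero M] (L : Type) [AddCommGroup L]
    [Module.Finite ℤ L] : Fintype (Chi M L) :=
  @Fintype.ofFinite _ (Chi_finite M (NeZero.ne M) L)

end

end Pool.Agent.helper86.CM
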