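import Pool.Agent.helper86.CM.Defs

/-!
# Quantum cat maps: the definitions of the final statement
-/

open scoped BigOperators

namespace Pool.Agent.helper86.CM

noncomputable section

/-- The action of `A ^ t` on the frequencies. -/
def act {g : ℕ} (A : Matrix (Fin g ⊕ Fin g) (Fin g ⊕ Fin g) ℤ) (t : ℕ) (n : Lat g) : Lat g :=
  (A ^ t).mulVec n

/-- The character `e(n·x)` of the torus. -/
def chr {g : ℕ} (n : Lat g) (x : UnitAddTorus (Fin g ⊕ Fin g)) : ℂ := UnitAddTorus.mFourier n x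

/-- The Wigner transforms `n ↦ ⟨ψ, T(n) ψ⟩` of all unit eigenvectors `ψ` of all unitary maps `U`
with the Egorov property `U⁻¹ T(n) U = T(f n)`. -/
def WignerSet {L H : Type} [NormedAddCommGroup H] [InnerProductSpace ℂ H] (T : L → (H →ₗ[ℂ] H))
    (f : L → L) : Set (L → ℂ) :=
  {F | ∃ (U : H ≃ₗᵢ[ℂ] H) (ψ : H) (c : ℂ), (∀ n v, T n (U v) = U (T (f n) v)) ∧ ‖ψ‖ = 1 ∧
    U ψ = c • ψ ∧ ∀ n, F n = inner ℂ ψ (T n ψ)}

/-- `F` is a limit of Wigner transforms of unit eigenvectors of quantizations of `A`, the Planck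
parameters being powers of `p` which tend to infinity. -/
def IsWignerLimit {g : ℕ} (p : ℕ) [Fact p.Prime] (A : Matrix (Fin g ⊕ Fin g) (Fin g ⊕ Fin g) ℤ)
    (F : Lat g → ℂ) : Prop :=
  ∃ (k : ℕ → ℕ) (W : ℕ → Lat g → ℂ), Filter.Tendsto k Filter.atTop Filter.atTop ∧
    (∀ j, W j ∈ WignerSet (TT (N := p ^ k j)) (act A 1)) ∧
    ∀ n, Filter.Tendsto (fun j => W j n) Filter.atTop (nhds (F n))

/-- `F` is the Fourier transform of a probability measure on the torus. -/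
def IsTransform {g : ℕ} (F : Lat g → ℂ) : Prop :=
  ∃ μ : MeasureTheory.Measure (UnitAddTorus (Fin g ⊕ Fin g)),
    MeasureTheory.IsProbabilityMeasure μ ∧ ∀ n : Lat g, ∫ y, chr n y ∂μ = F n

/-- `Λ` is a saturated isotropic sublattice with `A ^ m Λ ⊆ Λ`. -/
def IsInvIso {g : ℕ} (A : Matrix (Fin g ⊕ Fin g) (Fin g ⊕ Fin g) ℤ) (m : ℕ)
    (Λ : Submodule ℤ (Lat g)) : Prop :=
  IsSat Λ ∧ (∀ z ∈ Λ, ∀ z' ∈ Λ, omega z z' = 0) ∧ ∀ z ∈ Λ, act A m z ∈ Λ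

/-- The function `n ↦ (1/m) Σ_{t<m} [A^t n ∈ Λ] e(A^t n · x)`. -/
def scar {g : ℕ} (A : Matrix (Fin g ⊕ Fin g) (Fin g ⊕ Fin g) ℤ) (m : ℕ)
    (Λ : Submodule ℤ (Lat g)) (x : UnitAddTorus (Fin g ⊕ Fin g)) (n : Lat g) : ℂ :=
  (m : ℂ)⁻¹ * ∑ t ∈ Finset.range m,
    (open Classical in if act A t n ∈ Λ then chr (act A t n) x else 0)

/-- The scar functions of `A` for the prime `p`: `Λ` is a saturated isotropic sublattice with
`A ^ m Λ ⊆ Λ`, the character `e(·x)` of `Λ` is invariant under `A ^ m` and for some `C` it is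
equal to `(-1)^(q(z))` at `p^C z`. -/
def ScarSet {g : ℕ} (p : ℕ) (A : Matrix (Fin g ⊕ Fin g) (Fin g ⊕ Fin g) ℤ) : Set (Lat g → ℂ) :=
  {F | ∃ (m : ℕ) (Λ : Submodule ℤ (Lat g)) (x : UnitAddTorus (Fin g ⊕ Fin g)),
    0 < m ∧ IsInvIso A m Λ ∧ (∀ z ∈ Λ, chr (act A m z) x = chr z x) ∧
    (∃ C : ℕ, ∀ z ∈ Λ, chr ((p ^ C) • z) x = (-1) ^ (qf z).natAbs) ∧ F = scar A m Λ x}

end

end Pool.Agent.helper86.CM
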