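import Pool.Agent.helper86.CM.Defs2
import Pool.Agent.helper35.CM.LAT
import Pool.Agent.helper58.CM.WBa
import Pool.Agent.helper58.CM.WBb
import Pool.Agent.helper58.CM.AO

open scoped BigOperators

namespace Pool.Agent.helper86.CM

noncomputable section

set_option linter.unusedSectionVars false

variable {L : Type} [AddCommGroup L] [Module.Free ℤ L] [Module.Finite ℤ L]

theorem FIN_erg_pow (A : L ≃ₗ[ℤ] L) (hA : Erg A) (m₀ : ℕ) (hm₀ : 1 ≤ m₀) : Erg (A ^ m₀) := by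
  intro m hm z hz
  refine hA (m₀ * m) ?_ z ?_
  · exact Nat.one_le_iff_ne_zero.mpr (Nat.mul_ne_zero (by omega) (by omega))
  · rw [pow_mul]; exact hz

theorem FIN_om_pow {om : L →ₗ[ℤ] L →ₗ[ℤ] ℤ} (A : L ≃ₗ[ℤ] L)
    (hom : ∀ x y, om (A x) (A y) = om x y) (t : ℕ) :
    ∀ x y, om ((A ^ t) x) ((A ^ t) y) = om x y := by
  induction t with
  | zero => intro x y; simp
  | succ t ih =>
    intro x y
    rw [pow_succ']
    change om (A ((A ^ t) x)) (A ((A ^ t) y)) = _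
    rw [hom, ih]

theorem FIN_satur_map (E : L ≃ₗ[ℤ] L) (M : Submodule ℤ L) :
    (satur M).map (E : L →ₗ[ℤ] L) = satur (M.map (E : L →ₗ[ℤ] L)) := by
  ext z
  constructor
  · rintro ⟨w, ⟨a, ha, haw⟩, rfl⟩
    refine ⟨a, ha, ?_⟩
    refine ⟨a • w, haw, ?_⟩
    simp
  · rintro ⟨a, ha, w, hw, hwz⟩
    refine ⟨E.symm z, ⟨a, ha, ?_⟩, by simp⟩
    have : w = a • E.symm z := by
      apply E.injective
      have h2 : E w = a • z := hwz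
      rw [h2]
      simp
    rw [← this]
    exact hw

theorem FIN_Lam_map (A : L ≃ₗ[ℤ] L) (m₀ t : ℕ) (n : L) :
    (Lam (A ^ m₀) n).map ((A ^ t : L ≃ₗ[ℤ] L) : L →ₗ[ℤ] L) = Lam (A ^ m₀) ((A ^ t) n) := by
  unfold Lam
  rw [FIN_satur_map]
  congr 1
  rw [Submodule.map_span]
  congr 1
  ext z
  constructor
  · rintro ⟨w, ⟨j, rfl⟩, rfl⟩
    refine ⟨j, ?_⟩
    have hc : Commute ((A ^ m₀) ^ j) (A ^ t) :=
      ((Commute.refl A).pow_pow m₀ t).zpow_left j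
    change ((A ^ m₀) ^ j * A ^ t) n = (A ^ t * (A ^ m₀) ^ j) n
    rw [hc.eq]
  · rintro ⟨j, rfl⟩
    refine ⟨((A ^ m₀) ^ j) n, ⟨j, rfl⟩, ?_⟩
    have hc : Commute ((A ^ m₀) ^ j) (A ^ t) :=
      ((Commute.refl A).pow_pow m₀ t).zpow_left j
    change (A ^ t * (A ^ m₀) ^ j) n = ((A ^ m₀) ^ j * A ^ t) n
    rw [hc.eq]

theorem FIN_iso_map {om : L →ₗ[ℤ] L →ₗ[ℤ] ℤ} (A : L ≃ₗ[ℤ] L)
    (hom : ∀ x y, om (A x) (A y) = om x y) (t : ℕ) (Λ : Submodule ℤ L) :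
    Iso om (Λ.map ((A ^ t : L ≃ₗ[ℤ] L) : L →ₗ[ℤ] L)) ↔ Iso om Λ := by
  constructor
  · intro h x hx y hy
    have := h ((A ^ t) x) ⟨x, hx, rfl⟩ ((A ^ t) y) ⟨y, hy, rfl⟩
    rwa [FIN_om_pow A hom] at this
  · rintro h _ ⟨x, hx, rfl⟩ _ ⟨y, hy, rfl⟩
    change om ((A ^ t) x) ((A ^ t) y) = 0
    rw [FIN_om_pow A hom]
    exact h x hx y hy

theorem FIN_eq_of_rank {Λ Λ' : Submodule ℤ L} (h : Λ ≤ Λ') (hΛ : IsSat Λ)
    (hr : Module.finrank ℤ Λ' ≤ Module.finrank ℤ Λ) : Λ = Λ' := by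
  apply le_antisymm h
  intro z hz
  let M : Submodule ℤ Λ' := Λ.comap Λ'.subtype
  have e : M ≃ₗ[ℤ] Λ := Submodule.comapSubtypeEquivOfLe h
  have hM : Module.finrank ℤ M = Module.finrank ℤ Λ' := by
    apply le_antisymm
    · exact Submodule.finrank_le M
    · rw [e.finrank_eq]; exact hr
  have hfin : Finite (Λ' ⧸ M) := Submodule.finiteQuotientOfFreeOfRankEq M hM
  have hcard : Nat.card (Λ' ⧸ M) ≠ 0 := Nat.card_pos.ne'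
  have h1 : (Nat.card (Λ' ⧸ M)) • (Submodule.Quotient.mk (p := M) ⟨z, hz⟩) = 0 :=
    card_nsmul_eq_zero'
  rw [← Submodule.Quotient.mk_smul, Submodule.Quotient.mk_eq_zero] at h1
  refine hΛ (Nat.card (Λ' ⧸ M)) z (by exact_mod_cast hcard) ?_
  have h2 : ((Nat.card (Λ' ⧸ M)) • (⟨z, hz⟩ : Λ') : Λ').1 ∈ Λ := h1
  simpa using h2

section W

variable {om : L →ₗ[ℤ] L →ₗ[ℤ] ℤ} {H : Type} [NormedAddCommGroup H] [InnerProductSpace ℂ H]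
  {N : ℕ}

theorem FIN_U_pow (W : Weyl om H N) (A : L ≃ₗ[ℤ] L) (U : H ≃ₗᵢ[ℂ] H)
    (hU : ∀ m v, W.T m (U v) = U (W.T (A m) v)) (t : ℕ) :
    ∀ m v, W.T m ((U ^ t) v) = (U ^ t) (W.T ((A ^ t) m) v) := by
  induction t with
  | zero => intro m v; simp
  | succ t ih =>
    intro m v
    have h1 : (U ^ (t + 1)) v = U ((U ^ t) v) := by rw [pow_succ']; rfl
    have h2 : (U ^ (t + 1)) (W.T ((A ^ (t + 1)) m) v) = U ((U ^ t) (W.T ((A ^ (t + 1)) m) v)) := by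
      rw [pow_succ']; rfl
    have h3 : (A ^ (t + 1)) m = (A ^ t) (A m) := by rw [pow_succ]; rfl
    rw [h1, h2, hU, ih, h3]

theorem FIN_psi_pow (U : H ≃ₗᵢ[ℂ] H) (ψ : H) (c : ℂ) (h : U ψ = c • ψ) (t : ℕ) :
    (U ^ t) ψ = c ^ t • ψ := by
  induction t with
  | zero => simp
  | succ t ih =>
    have h1 : (U ^ (t + 1)) ψ = U ((U ^ t) ψ) := by rw [pow_succ']; rfl
    rw [h1, ih, map_smul, h, smul_smul, pow_succ]

theorem FIN_c_norm (U : H ≃ₗᵢ[ℂ] H) (ψ : H) (hψ : ‖ψ‖ = 1) (c : ℂ) (h : U ψ = c • ψ) :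
    ‖c‖ = 1 := by
  have h1 : ‖U ψ‖ = ‖c • ψ‖ := by rw [h]
  rw [LinearIsometryEquiv.norm_map, norm_smul, hψ, mul_one] at h1
  exact h1.symm

/-- invariance of the Wigner transform -/
theorem FIN_phi_inv (W : Weyl om H N) (A : L ≃ₗ[ℤ] L) (U : H ≃ₗᵢ[ℂ] H)
    (hU : ∀ m v, W.T m (U v) = U (W.T (A m) v)) (ψ : H) (hψ : ‖ψ‖ = 1) (c : ℂ)
    (hc : U ψ = c • ψ) (t : ℕ) (n : L) :
    (inner ℂ ψ (W.T ((A ^ t) n) ψ) : ℂ) = inner ℂ ψ (W.T n ψ) := by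
  have h1 : (inner ℂ ψ (W.T ((A ^ t) n) ψ) : ℂ) =
      inner ℂ ((U ^ t) ψ) ((U ^ t) (W.T ((A ^ t) n) ψ)) :=
    ((U ^ t).inner_map_map ψ _).symm
  rw [h1, ← FIN_U_pow W A U hU, FIN_psi_pow U ψ c hc, map_smul, inner_smul_left, inner_smul_right,
    ← mul_assoc]
  have h2 : (starRingEnd ℂ) (c ^ t) * c ^ t = 1 := by
    rw [Complex.conj_mul', norm_pow, FIN_c_norm U ψ hψ c hc]
    simp
  rw [h2, one_mul]

theorem FIN_proj_inv [FiniteDimensional ℂ H] (W : Weyl om H N) (A : L ≃ₗ[ℤ] L) (U : H ≃ₗᵢ[ℂ] H)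
    (hU : ∀ m v, W.T m (U v) = U (W.T (A m) v)) (ψ : H) (hψ : ‖ψ‖ = 1) (c : ℂ)
    (hc : U ψ = c • ψ) (t : ℕ) (n : L) (Λ : Submodule ℤ L) (a : ℕ) :
    (inner ℂ ψ (W.T ((A ^ t) n)
      ((KK W (Λ.map ((A ^ t : L ≃ₗ[ℤ] L) : L →ₗ[ℤ] L)) a).starProjection ψ)) : ℂ) =
      inner ℂ ψ (W.T n ((KK W Λ a).starProjection ψ)) := by
  have h1 : (inner ℂ ψ (W.T ((A ^ t) n)
      ((KK W (Λ.map ((A ^ t : L ≃ₗ[ℤ] L) : L →ₗ[ℤ] L)) a).starProjection ψ)) : ℂ) =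
      inner ℂ ((U ^ t) ψ) ((U ^ t) (W.T ((A ^ t) n)
        ((KK W (Λ.map ((A ^ t : L ≃ₗ[ℤ] L) : L →ₗ[ℤ] L)) a).starProjection ψ))) :=
    ((U ^ t).inner_map_map ψ _).symm
  rw [h1, ← FIN_U_pow W A U hU, ← WB_equiv W (A ^ t) (U ^ t) (FIN_U_pow W A U hU t),
    FIN_psi_pow U ψ c hc, map_smul, map_smul, inner_smul_left, inner_smul_right,
    ← mul_assoc]
  have h2 : (starRingEnd ℂ) (c ^ t) * c ^ t = 1 := by
    rw [Complex.conj_mul', norm_pow, FIN_c_norm U ψ hψ c hc]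
    simp
  rw [h2, one_mul]

/-- almost orthogonality for projections -/
theorem FIN_AO [FiniteDimensional ℂ H] (p : ℕ) [Fact p.Prime] {k : ℕ} (W : Weyl om H (p ^ k))
    (Λ Λ' : Submodule ℤ L) (z z' : L) (hz : z ∈ Λ) (hz' : z' ∈ Λ') (hzz : om z z' ≠ 0)
    (Cm C C' : ℕ) (hC : C ≤ Cm) (hC' : C' ≤ Cm) (S : ℕ) (ε : ℝ) (hε : 0 < ε)
    (hS : 1 ≤ S * ε ^ 2) (hk : (S : ℤ) * (4 * p ^ (2 * Cm) * |om z z'|) ≤ p ^ k) (v : H) :
    ‖(KK W Λ (2 * p ^ C)).starProjection ((KK W Λ' (2 * p ^ C')).starProjection v)‖ ≤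
      ε * ‖v‖ := by
  set P := (KK W Λ (2 * p ^ C)).starProjection with hP
  set P' := (KK W Λ' (2 * p ^ C')).starProjection with hP'
  have hp1 : 1 ≤ p := (Fact.out : p.Prime).one_lt.le
  have hN : 1 ≤ p ^ k := Nat.one_le_pow _ _ hp1
  set u := P (P' v) with hu
  set w := P' v with hw
  have hu1 : u ∈ KK W Λ (2 * p ^ C) := Submodule.starProjection_apply_mem _ _
  have hw1 : w ∈ KK W Λ' (2 * p ^ C') := Submodule.starProjection_apply_mem _ _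
  have hom : om ((2 * p ^ C) • z) ((2 * p ^ C') • z') = ((2 * p ^ C * (2 * p ^ C') : ℕ) : ℤ) *
      om z z' := by
    simp only [map_nsmul, LinearMap.smul_apply, nsmul_eq_mul]
    push_cast
    ring
  have hne : om ((2 * p ^ C) • z) ((2 * p ^ C') • z') ≠ 0 := by
    rw [hom]
    refine mul_ne_zero ?_ hzz
    have : 0 < 2 * p ^ C * (2 * p ^ C') := by positivity
    exact_mod_cast this.ne'
  have hSS : (S : ℤ) * |om ((2 * p ^ C) • z) ((2 * p ^ C') • z')| ≤ (p ^ k : ℕ) := by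
    rw [hom, abs_mul]
    have h1 : |((2 * p ^ C * (2 * p ^ C') : ℕ) : ℤ)| ≤ 4 * p ^ (2 * Cm) := by
      rw [abs_of_nonneg (by positivity)]
      have h2 : 2 * p ^ C * (2 * p ^ C') ≤ 4 * p ^ (2 * Cm) := by
        calc 2 * p ^ C * (2 * p ^ C') = 4 * p ^ (C + C') := by ring
          _ ≤ 4 * p ^ (2 * Cm) := by
            refine Nat.mul_le_mul_left _ (Nat.pow_le_pow_right hp1 (by omega))
      exact_mod_cast h2
    calc (S : ℤ) * (|((2 * p ^ C * (2 * p ^ C') : ℕ) : ℤ)| * |om z z'|)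
        ≤ (S : ℤ) * (4 * p ^ (2 * Cm) * |om z z'|) := by gcongr
      _ ≤ p ^ k := hk
      _ = ((p ^ k : ℕ) : ℤ) := by push_cast; rfl
  have hAO := AO W hN _ _ S hne hSS u w (hu1 z hz) (hw1 z' hz')
  -- <u, w> = ‖u‖^2
  have hin : (inner ℂ u w : ℂ) = (‖u‖ : ℂ) ^ 2 := by
    have h0 : (KK W Λ (2 * p ^ C)).starProjection u = u :=
      Submodule.starProjection_eq_self_iff.mpr hu1
    have h1 : (inner ℂ u w : ℂ) = inner ℂ u (P w) := by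
      have h2 := Submodule.inner_starProjection_left_eq_right (KK W Λ (2 * p ^ C)) u w
      rw [h0] at h2
      exact h2
    rw [h1]
    change (inner ℂ u u : ℂ) = _
    rw [inner_self_eq_norm_sq_to_K]
    rfl
  rw [hin] at hAO
  have hwv : ‖w‖ ≤ ‖v‖ := Submodule.norm_starProjection_apply_le _ _
  have h3 : (S : ℝ) * (‖u‖ ^ 2) ^ 2 ≤ ‖u‖ ^ 2 * ‖w‖ ^ 2 := by
    have : ‖((‖u‖ : ℂ) ^ 2)‖ = ‖u‖ ^ 2 := by simp
    rwa [this] at hAO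
  by_cases h0 : ‖u‖ = 0
  · rw [h0]; positivity
  have hupos : 0 < ‖u‖ := lt_of_le_of_ne (norm_nonneg _) (Ne.symm h0)
  have h4 : (S : ℝ) * ‖u‖ ^ 2 ≤ ‖w‖ ^ 2 := by
    have h5 : ‖u‖ ^ 2 * ((S : ℝ) * ‖u‖ ^ 2) ≤ ‖u‖ ^ 2 * ‖w‖ ^ 2 := by nlinarith
    exact le_of_mul_le_mul_left h5 (by positivity)
  have h6 : ‖u‖ ^ 2 ≤ (ε * ‖v‖) ^ 2 := by
    have h7 : ‖w‖ ^ 2 ≤ ‖v‖ ^ 2 := by gcongr
    calc ‖u‖ ^ 2 = 1 * ‖u‖ ^ 2 := by ring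
      _ ≤ (S * ε ^ 2) * ‖u‖ ^ 2 := by gcongr
      _ = ε ^ 2 * (S * ‖u‖ ^ 2) := by ring
      _ ≤ ε ^ 2 * ‖v‖ ^ 2 := by gcongr; linarith
      _ = (ε * ‖v‖) ^ 2 := by ring
  exact le_of_sq_le_sq h6 (by positivity)

end W

end

end Pool.Agent.helper86.CM
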