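import Pool.Agent.helper86.CM.FinA
import Pool.Agent.helper10.CM.FAM
import Pool.Agent.helper10.CM.MP
import Pool.Agent.helper45.CM.DEC
import Pool.Agent.helper45.CM.PIG
import Pool.Agent.helper92.CM.R1
import Pool.Agent.helper92.CM.R2

open scoped BigOperators

namespace Pool.Agent.helper86.CM

noncomputable section

set_option linter.unusedSectionVars false

variable {L : Type} [AddCommGroup L] [Module.Free ℤ L] [Module.Finite ℤ L]

theorem FIN_niso {om : L →ₗ[ℤ] L →ₗ[ℤ] ℤ} (alt : ∀ z, om z z = 0) {Λ Λ' : Submodule ℤ L}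
    (h : Iso om Λ) (h' : Iso om Λ') (hn : ¬ Iso om (Λ ⊔ Λ')) :
    ∃ z ∈ Λ, ∃ z' ∈ Λ', om z z' ≠ 0 := by
  by_contra hcon
  push Not at hcon
  apply hn
  intro x hx y hy
  obtain ⟨a, ha, b, hb, rfl⟩ := Submodule.mem_sup.mp hx
  obtain ⟨c, hc, d, hd, rfl⟩ := Submodule.mem_sup.mp hy
  have anti : ∀ x y, om x y = - om y x := by
    intro x y
    have h1 := alt (x + y)
    simp only [map_add, LinearMap.add_apply, alt] at h1
    omega
  simp only [map_add, LinearMap.add_apply]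
  rw [h a ha c hc, h' b hb d hd, hcon a ha d hd, anti b c, hcon c hc b hb]
  simp

open Classical in
theorem FIN1 (p : ℕ) [Fact p.Prime] (hp : p ≠ 2) (om : L →ₗ[ℤ] L →ₗ[ℤ] ℤ)
    (alt : ∀ z, om z z = 0) (A : L ≃ₗ[ℤ] L) (hom : ∀ x y, om (A x) (A y) = om x y)
    (hA : Erg A) (S : Finset L) (ε : ℝ) (hε : 0 < ε) :
    ∃ (m₀ J : ℕ) (Lm : ℕ → Submodule ℤ L) (Cm k₀ : ℕ), 1 ≤ m₀ ∧
      (∀ j < J, IsSat (Lm j)) ∧ (∀ j < J, Iso om (Lm j)) ∧
      (∀ j < J, ∀ z ∈ Lm j, (A ^ m₀) z ∈ Lm j) ∧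
      ∀ k, k₀ ≤ k → ∀ (H : Type) [NormedAddCommGroup H] [InnerProductSpace ℂ H]
        [FiniteDimensional ℂ H] (W : Weyl om H (p ^ k)) (U : H ≃ₗᵢ[ℂ] H) (ψ : H) (c : ℂ),
        (∀ m v, W.T m (U v) = U (W.T (A m) v)) → ‖ψ‖ = 1 → U ψ = c • ψ →
        ∃ ξ : ℕ → H, (∀ j < J, ξ j ∈ KK W (Lm j) (2 * p ^ Cm)) ∧
          |1 - ∑ j ∈ Finset.range J, ‖ξ j‖ ^ 2| ≤ ε ∧
          ∀ n ∈ S, ∀ t : ℕ, ‖(inner ℂ ψ (W.T ((A ^ t) n) ψ) : ℂ) -
            ∑ j ∈ Finset.range J with (A ^ t) n ∈ Lm j,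
              inner ℂ (ξ j) (W.T ((A ^ t) n) (ξ j))‖ ≤ ε := by
  have hp1 : 1 ≤ p := (Fact.out : p.Prime).one_lt.le
  obtain ⟨m₀, hm₀, hMP⟩ := MP A
  have hB : Erg (A ^ m₀) := FIN_erg_pow A hA m₀ hm₀
  obtain ⟨J, Lm, hJ, hsat, hiso, hinv, hinj, hrank, hbot, hfam, hjoin⟩ :=
    FAM om A hom m₀ hm₀ (insert 0 S)
  obtain ⟨K, hK0, hK⟩ := DEC J hJ
  set ε₁ : ℝ := ε / (2 * (K + 1)) with hε₁
  have hε₁pos : 0 < ε₁ := by positivity
  have hKε : K * ε₁ ≤ ε / 2 := by
    rw [hε₁]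
    rw [show K * (ε / (2 * (K + 1))) = (ε / 2) * (K / (K + 1)) by field_simp]
    have : K / (K + 1) ≤ 1 := by
      rw [div_le_one (by positivity)]
      linarith
    nlinarith
  -- R1
  have hR1 : ∀ n : L, ∃ C₀ : ℕ, Iso om (Lam (A ^ m₀) n) → ∀ C, C₀ ≤ C →
      ∀ (k : ℕ) (H : Type) [NormedAddCommGroup H] [InnerProductSpace ℂ H]
      [FiniteDimensional ℂ H] (W : Weyl om H (p ^ k)) (V : H ≃ₗᵢ[ℂ] H) (ψ : H) (c : ℂ),
      (∀ m v, W.T m (V v) = V (W.T ((A ^ m₀) m) v)) → ‖ψ‖ = 1 → V ψ = c • ψ →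
      ‖(inner ℂ ψ (W.T n ψ) : ℂ) -
        inner ℂ ψ (W.T n ((KK W (Lam (A ^ m₀) n) (2 * p ^ C)).starProjection ψ))‖ ≤ ε / 2 := by
    intro n
    by_cases h : Iso om (Lam (A ^ m₀) n)
    · obtain ⟨C₀, hC₀⟩ := R1 p hp om (A ^ m₀) hB hMP n h (ε / 2) (by positivity)
      exact ⟨C₀, fun _ => hC₀⟩
    · exact ⟨0, fun h' => absurd h' h⟩
  choose C0f hC0f using hR1
  have hR2 : ∀ n : L, ∃ k₀ : ℕ, ¬ Iso om (Lam (A ^ m₀) n) → ∀ k, k₀ ≤ k →
      ∀ (H : Type) [NormedAddCommGroup H] [InnerProductSpace ℂ H]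
      [FiniteDimensional ℂ H] (W : Weyl om H (p ^ k)) (V : H ≃ₗᵢ[ℂ] H) (ψ : H) (c : ℂ),
      (∀ m v, W.T m (V v) = V (W.T ((A ^ m₀) m) v)) → ‖ψ‖ = 1 → V ψ = c • ψ →
      ‖(inner ℂ ψ (W.T n ψ) : ℂ)‖ ≤ ε := by
    intro n
    by_cases h : Iso om (Lam (A ^ m₀) n)
    · exact ⟨0, fun h' => absurd h h'⟩
    · obtain ⟨k₀, hk₀⟩ := R2 p hp om (A ^ m₀) (FIN_om_pow A hom m₀) hB hMP n h ε hε
      exact ⟨k₀, fun _ => hk₀⟩
  choose k2f hk2f using hR2
  -- exponents
  choose D hD1 hD using fun (i j : ℕ) => satur_expo (Lm i ⊔ Lm j)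
  set v : ℕ := (Finset.range J ×ˢ Finset.range J).sup
    (fun q => (D q.1 q.2).factorization p) with hv
  have hvle : ∀ i < J, ∀ j < J, (D i j).factorization p ≤ v := by
    intro i hi j hj
    exact Finset.le_sup (f := fun q : ℕ × ℕ => (D q.1 q.2).factorization p)
      (Finset.mem_product.mpr ⟨Finset.mem_range.mpr hi, Finset.mem_range.mpr hj⟩ :
        (i, j) ∈ Finset.range J ×ˢ Finset.range J)
  set V : ℕ := v * Module.finrank ℤ L with hV
  obtain ⟨R, hR⟩ := PIG (Fin J) V (ε₁ / 2) (by positivity)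
  set C₀ : ℕ := (insert 0 S).sup C0f with hC₀
  set Cm : ℕ := C₀ + R + V with hCm
  -- pairs
  have hpair : ∀ i j : ℕ, ∃ z z' : L, (i < J → j < J → ¬ Iso om (Lm i ⊔ Lm j) →
      z ∈ Lm i ∧ z' ∈ Lm j ∧ om z z' ≠ 0) := by
    intro i j
    by_cases h : i < J ∧ j < J ∧ ¬ Iso om (Lm i ⊔ Lm j)
    · obtain ⟨z, hz, z', hz', hne⟩ := FIN_niso alt (hiso i h.1) (hiso j h.2.1) h.2.2
      exact ⟨z, z', fun _ _ _ => ⟨hz, hz', hne⟩⟩
    · exact ⟨0, 0, fun h1 h2 h3 => absurd ⟨h1, h2, h3⟩ h⟩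
  choose zf zf' hzf using hpair
  set wm : ℕ := (Finset.range J ×ˢ Finset.range J).sup
    (fun q => (om (zf q.1 q.2) (zf' q.1 q.2)).natAbs) with hwm
  obtain ⟨Sn, hSn⟩ := exists_nat_ge (1 / (ε₁ / 2) ^ 2)
  have hSn1 : 1 ≤ (Sn : ℝ) * (ε₁ / 2) ^ 2 := by
    rw [div_le_iff₀ (by positivity)] at hSn
    exact hSn
  set k₃ : ℕ := Sn * (4 * p ^ (2 * Cm) * wm) with hk₃
  refine ⟨m₀, J, Lm, Cm, max ((insert 0 S).sup k2f) k₃, hm₀, hsat, hiso, hinv, ?_⟩
  intro k hk H _ _ _ W U ψ c hU hψ hc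
  have hkk₃ : k₃ ≤ k := le_trans (le_max_right _ _) hk
  have hkpow : ∀ i < J, ∀ j < J,
      (Sn : ℤ) * (4 * p ^ (2 * Cm) * |om (zf i j) (zf' i j)|) ≤ p ^ k := by
    intro i hi j hj
    have h1 : (om (zf i j) (zf' i j)).natAbs ≤ wm :=
      Finset.le_sup (f := fun q : ℕ × ℕ => (om (zf q.1 q.2) (zf' q.1 q.2)).natAbs)
      (Finset.mem_product.mpr ⟨Finset.mem_range.mpr hi, Finset.mem_range.mpr hj⟩ :
        (i, j) ∈ Finset.range J ×ˢ Finset.range J)
    have h2 : Sn * (4 * p ^ (2 * Cm) * (om (zf i j) (zf' i j)).natAbs) ≤ p ^ k := by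
      calc Sn * (4 * p ^ (2 * Cm) * (om (zf i j) (zf' i j)).natAbs) ≤ k₃ := by
            rw [hk₃]; gcongr
        _ ≤ k := hkk₃
        _ ≤ p ^ k := (Nat.lt_pow_self (Fact.out : p.Prime).one_lt).le
    rw [← Int.natCast_natAbs]
    exact_mod_cast h2
  -- small products
  have small : ∀ i < J, ∀ j < J, ¬ Iso om (Lm i ⊔ Lm j) → ∀ C1 ≤ Cm, ∀ C2 ≤ Cm, ∀ x : H,
      ‖(KK W (Lm i) (2 * p ^ C1)).starProjection
        ((KK W (Lm j) (2 * p ^ C2)).starProjection x)‖ ≤ (ε₁ / 2) * ‖x‖ := by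
    intro i hi j hj hn C1 hC1 C2 hC2 x
    obtain ⟨hz, hz', hne⟩ := hzf i j hi hj hn
    exact FIN_AO p W (Lm i) (Lm j) _ _ hz hz' hne Cm C1 C2 hC1 hC2 Sn (ε₁ / 2) (by positivity)
      hSn1 (hkpow i hi j hj) x
  have ac : ∀ i < J, ∀ j < J, ∀ C1 ≤ Cm, ∀ C2 ≤ Cm, ∀ x : H,
      ‖(KK W (Lm i) (2 * p ^ C1)).starProjection
        ((KK W (Lm j) (2 * p ^ C2)).starProjection x) -
        (KK W (Lm j) (2 * p ^ C2)).starProjection
        ((KK W (Lm i) (2 * p ^ C1)).starProjection x)‖ ≤ ε₁ * ‖x‖ := by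
    intro i hi j hj C1 hC1 C2 hC2 x
    by_cases h : Iso om (Lm i ⊔ Lm j)
    · rw [WB_proj_proj W (Lm i) (Lm j) _ _ h x, sub_self, norm_zero]
      positivity
    · have h' : ¬ Iso om (Lm j ⊔ Lm i) := by rwa [sup_comm]
      have h1 := small i hi j hj h C1 hC1 C2 hC2 x
      have h2 := small j hj i hi h' C2 hC2 C1 hC1 x
      calc _ ≤ _ + _ := norm_sub_le _ _
        _ ≤ (ε₁ / 2) * ‖x‖ + (ε₁ / 2) * ‖x‖ := add_le_add h1 h2
        _ = ε₁ * ‖x‖ := by ring
  -- the level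
  obtain ⟨C, hC₀C, hCR, hCpig⟩ := hR H (fun i C' => KK W (Lm i) (2 * p ^ C'))
    (fun i a b hab => WB_mono W (le_refl _) (Nat.mul_dvd_mul_left 2 (pow_dvd_pow p hab)))
    ψ hψ.le C₀
  set lev : ℕ → ℕ := fun j => C + v * Module.finrank ℤ (Lm j) with hlev
  have hlevV : ∀ j, lev j ≤ C + V := by
    intro j
    have h1 : Module.finrank ℤ (Lm j) ≤ Module.finrank ℤ L := Submodule.finrank_le _
    have h2 : v * Module.finrank ℤ (Lm j) ≤ v * Module.finrank ℤ L := Nat.mul_le_mul_left _ h1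
    change C + v * Module.finrank ℤ (Lm j) ≤ C + V
    omega
  have hlevC : ∀ j, C ≤ lev j := fun j => Nat.le_add_right _ _
  have hlevm : ∀ j, lev j ≤ Cm := by
    intro j
    have := hlevV j
    omega
  have hlev_mono : ∀ i j, Module.finrank ℤ (Lm i) ≤ Module.finrank ℤ (Lm j) → lev i ≤ lev j := by
    intro i j h
    change C + v * Module.finrank ℤ (Lm i) ≤ C + v * Module.finrank ℤ (Lm j)
    have := Nat.mul_le_mul_left v h
    omega
  set P : ℕ → (H →L[ℂ] H) := fun j => (KK W (Lm j) (2 * p ^ (lev j))).starProjection with hP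
  obtain ⟨up, hup⟩ : ∃ up : ℕ → ℕ → Prop, ∀ a b, up a b ↔ (b ≤ a ∧ Lm a ≤ Lm b) :=
    ⟨fun a b => b ≤ a ∧ Lm a ≤ Lm b, fun _ _ => Iff.rfl⟩
  have hupmem : ∀ a < J, ∀ b < J, Lm a ≤ Lm b → b ≤ a := by
    intro a ha b hb hab
    by_contra hcon
    push Not at hcon
    have h1 := hrank a b hcon.le hb
    have h2 := FIN_eq_of_rank hab (hsat a ha) h1
    have h3 := hinj a ha b hb h2
    omega
  have hDEC := hK H P ψ ε₁ up hε₁pos.le hψ.le
    (fun i x => by
      change (KK W (Lm i) (2 * p ^ (lev i))).starProjection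
        ((KK W (Lm i) (2 * p ^ (lev i))).starProjection x) = _
      rw [Submodule.starProjection_eq_self_iff.mpr (Submodule.starProjection_apply_mem _ _)])
    (fun i x y => Submodule.inner_starProjection_left_eq_right _ x y)
    (fun i x => Submodule.norm_starProjection_apply_le _ x)
    (fun x => by
      refine Submodule.starProjection_eq_self_iff.mpr ?_
      intro z hz
      rw [hbot] at hz
      rw [(Submodule.mem_bot ℤ).mp hz]
      simp [W.zero])
    (fun i hi j hj x => ac i hi j hj _ (hlevm i) _ (hlevm j) x)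
    (by
      intro a ha b hb hupab
      obtain ⟨hba, hab⟩ := (hup a b).mp hupab
      refine ⟨hba, (KK W (Lm a) (2 * p ^ (lev b))).starProjection, ?_, ?_, ?_, ?_⟩
      · intro i hi x
        exact ac a ha i hi _ (hlevm b) _ (hlevm i) x
      · intro x
        refine Submodule.starProjection_eq_self_iff.mpr ?_
        exact WB_mono W hab (dvd_refl _) (Submodule.starProjection_apply_mem _ x)
      · intro x
        exact Submodule.norm_starProjection_apply_le _ x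
      · have h1 := hCpig ⟨a, ha⟩ (lev b) (hlevC b) (hlevV b)
        have h2 := hCpig ⟨a, ha⟩ (lev a) (hlevC a) (hlevV a)
        simp only at h1 h2
        calc ‖(KK W (Lm a) (2 * p ^ (lev b))).starProjection ψ - P a ψ‖
            = ‖((KK W (Lm a) (2 * p ^ (lev b))).starProjection ψ -
                (KK W (Lm a) (2 * p ^ C)).starProjection ψ) -
              ((KK W (Lm a) (2 * p ^ (lev a))).starProjection ψ -
                (KK W (Lm a) (2 * p ^ C)).starProjection ψ)‖ := by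
              congr 1
              rw [hP]
              abel
          _ ≤ _ + _ := norm_sub_le _ _
          _ ≤ ε₁ / 2 + ε₁ / 2 := add_le_add h1 h2
          _ = ε₁ := by ring)
    (by
      intro a ha b hba hnup
      have hb : b < J := lt_trans hba ha
      have hnle : ¬ (Lm a ≤ Lm b) := fun h => hnup ((hup a b).mpr ⟨hba.le, h⟩)
      by_cases h : Iso om (Lm a ⊔ Lm b)
      · right
        obtain ⟨l, hl, hLl⟩ := hjoin a ha b hb h
        have hbl : Lm b ≤ Lm l := by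
          rw [hLl]
          exact le_trans le_sup_right (le_satur _)
        have hal : Lm a ≤ Lm l := by
          rw [hLl]
          exact le_trans le_sup_left (le_satur _)
        have hrk : Module.finrank ℤ (Lm b) < Module.finrank ℤ (Lm l) := by
          by_contra hcon
          push Not at hcon
          have h2 := FIN_eq_of_rank hbl (hsat b hb) hcon
          exact hnle (h2 ▸ hal)
        have hlb : l < b := by
          by_contra hcon
          push Not at hcon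
          have := hrank b l hcon hl
          omega
        refine ⟨l, hlb, ?_⟩
        intro x
        refine Submodule.starProjection_eq_self_iff.mpr ?_
        set y := P a (P b x) with hy
        have hy1 : y ∈ KK W (Lm a) (2 * p ^ (lev a)) := Submodule.starProjection_apply_mem _ _
        have hy2 : y ∈ KK W (Lm b) (2 * p ^ (lev b)) := by
          have : y = P b (P a x) := WB_proj_proj W (Lm a) (Lm b) _ _ h x
          rw [this]
          exact Submodule.starProjection_apply_mem _ _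
        have hDne : D a b ≠ 0 := by have := hD1 a b; omega
        have hy3 := WB_join p W (Lm a) (Lm b) h (D a b) ((D a b).factorization p) (hD a b)
          ⟨D a b / p ^ (D a b).factorization p, (Nat.ordProj_mul_ordCompl_eq_self _ _).symm,
            (Nat.coprime_ordCompl Fact.out hDne).symm⟩ (lev a) (lev b) (lev b)
          (hlev_mono a b (hrank b a hba.le ha)) le_rfl y hy1 hy2
        rw [← hLl] at hy3
        refine WB_mono W le_rfl (Nat.mul_dvd_mul_left 2 (pow_dvd_pow p ?_)) hy3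
        change C + v * Module.finrank ℤ (Lm b) + (D a b).factorization p ≤
          C + v * Module.finrank ℤ (Lm l)
        have h4 := hvle a ha b hb
        have h5 : v * (Module.finrank ℤ (Lm b) + 1) ≤ v * Module.finrank ℤ (Lm l) :=
          Nat.mul_le_mul_left _ hrk
        rw [Nat.mul_add, Nat.mul_one] at h5
        omega
      · left
        intro x
        refine le_trans (small a ha b hb h _ (hlevm a) _ (hlevm b) x) ?_
        have : 0 ≤ ‖x‖ := norm_nonneg x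
        nlinarith)
    (fun a _ => (hup a a).mpr ⟨le_rfl, le_rfl⟩)
  -- main estimate
  have main : ∀ n ∈ insert 0 S, ∀ t : ℕ, ‖(inner ℂ ψ (W.T ((A ^ t) n) ψ) : ℂ) -
            ∑ j ∈ Finset.range J with (A ^ t) n ∈ Lm j,
              inner ℂ (ps P ψ j) (W.T ((A ^ t) n) (ps P ψ j))‖ ≤ ε := by
    intro n hn t
    have hUm := FIN_U_pow W A U hU m₀
    have hcm := FIN_psi_pow U ψ c hc m₀
    rw [FIN_phi_inv W A U hU ψ hψ c hc t n]
    by_cases h : Iso om (Lam (A ^ m₀) n)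
    · obtain ⟨a, ha, hLa⟩ := hfam n hn h t
      have h1 := hC0f n h (lev a) (le_trans (Finset.le_sup hn) (le_trans hC₀C (hlevC a))) k H W
        (U ^ m₀) ψ (c ^ m₀) hUm hψ hcm
      have h2 := FIN_proj_inv W A U hU ψ hψ c hc t n (Lam (A ^ m₀) n) (2 * p ^ (lev a))
      rw [FIN_Lam_map, ← hLa] at h2
      rw [← h2] at h1
      have hmem : (A ^ t) n ∈ Lm a := by rw [hLa]; exact Lam_self _ _
      have h3 := hDEC a ha (W.T ((A ^ t) n)) (fun x => W.norm _ x) (by
        intro b hb hupab x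
        obtain ⟨_, hab⟩ := (hup a b).mp hupab
        exact WB_T_proj W (Lm b) _ _ (fun z hz => hiso b hb z hz _ (hab hmem)) x)
      have h4 : (Finset.range J).filter (fun b => up a b) =
          (Finset.range J).filter (fun b => (A ^ t) n ∈ Lm b) := by
        ext b
        simp only [Finset.mem_filter, Finset.mem_range]
        constructor
        · rintro ⟨hb, hupab⟩
          exact ⟨hb, ((hup a b).mp hupab).2 hmem⟩
        · rintro ⟨hb, hnb⟩
          have h5 : Lm a ≤ Lm b := by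
            rw [hLa]
            exact Lam_min _ _ _ (hsat b hb) (hinv b hb) hnb
          exact ⟨hb, (hup a b).mpr ⟨hupmem a ha b hb h5, h5⟩⟩
      rw [h4] at h3
      calc _ = ‖((inner ℂ ψ (W.T n ψ) : ℂ) - inner ℂ ψ (W.T ((A ^ t) n) (P a ψ))) +
            ((inner ℂ ψ (W.T ((A ^ t) n) (P a ψ)) : ℂ) -
              ∑ j ∈ Finset.range J with (A ^ t) n ∈ Lm j,
              inner ℂ (ps P ψ j) (W.T ((A ^ t) n) (ps P ψ j)))‖ := by congr 1; ring
        _ ≤ _ + _ := norm_add_le _ _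
        _ ≤ ε / 2 + K * ε₁ := add_le_add h1 h3
        _ ≤ ε := by linarith
    · have h0 : (Finset.range J).filter (fun b => (A ^ t) n ∈ Lm b) = ∅ := by
        rw [Finset.filter_eq_empty_iff]
        intro b hb hnb
        have hb' : b < J := Finset.mem_range.mp hb
        apply h
        rw [← FIN_iso_map A hom t, FIN_Lam_map]
        intro x hx y hy
        have h5 := Lam_min _ _ _ (hsat b hb') (hinv b hb') hnb
        exact hiso b hb' x (h5 hx) y (h5 hy)
      rw [h0, Finset.sum_empty, sub_zero]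
      exact hk2f n h k (le_trans (Finset.le_sup hn) (le_trans (le_max_left _ _) hk)) H W
        (U ^ m₀) ψ (c ^ m₀) hUm hψ hcm
  refine ⟨ps P ψ, ?_, ?_, ?_⟩
  · intro j _
    refine WB_mono W le_rfl (Nat.mul_dvd_mul_left 2 (pow_dvd_pow p (hlevm j))) ?_
    exact Submodule.starProjection_apply_mem _ _
  · have h := main 0 (Finset.mem_insert_self _ _) 0
    have h1 : (Finset.range J).filter (fun b => (A ^ 0) (0 : L) ∈ Lm b) = Finset.range J := by
      apply Finset.filter_true_of_mem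
      intro b _
      simp
    rw [h1] at h
    simp only [map_zero, W.zero] at h
    have h2 : (inner ℂ ψ ψ : ℂ) = 1 := by
      rw [inner_self_eq_norm_sq_to_K, hψ]; simp
    have h3 : ∀ j, (inner ℂ (ps P ψ j) (ps P ψ j) : ℂ) = ((‖ps P ψ j‖ ^ 2 : ℝ) : ℂ) := by
      intro j
      rw [inner_self_eq_norm_sq_to_K]
      push_cast
      rfl
    rw [h2, Finset.sum_congr rfl (fun j _ => h3 j), ← Complex.ofReal_sum] at h
    have h4 : ((1 : ℂ) - ((∑ j ∈ Finset.range J, ‖ps P ψ j‖ ^ 2 : ℝ) : ℂ)) =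
        ((1 - ∑ j ∈ Finset.range J, ‖ps P ψ j‖ ^ 2 : ℝ) : ℂ) := by push_cast; ring
    rw [h4, Complex.norm_real] at h
    exact h
  · intro n hn t
    exact main n (Finset.mem_insert_of_mem hn) t

end

end Pool.Agent.helper86.CM
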