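import Pool.Agent.helper86.CM.FinB
import Pool.Agent.helper45.CM.SP
import Pool.Agent.helper58.CM.TW
import Pool.Agent.helper10.CM.PER
import Pool.Agent.helper35.CM.EXT

open scoped BigOperators

namespace Pool.Agent.helper86.CM

noncomputable section

set_option linter.unusedSectionVars false

theorem FIN_scars_nonempty (g p : ℕ) (A : Matrix (Fin g ⊕ Fin g) (Fin g ⊕ Fin g) ℤ) :
    (Scars p A).Nonempty := by
  classical
  refine ⟨fun n => ((1 : ℕ) : ℂ)⁻¹ * ∑ t ∈ Finset.range 1,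
      (open Classical in if (A ^ t).mulVec n ∈ (⊥ : Submodule ℤ (Lat g)) then
        UnitAddTorus.mFourier ((A ^ t).mulVec n) 0 else 0), 1, ⊥, 0, one_pos, ?_, ?_, ?_, ?_, ?_, ?_⟩
  · intro a z ha hz
    rw [Submodule.mem_bot] at hz ⊢
    exact (smul_eq_zero.mp hz).resolve_left ha
  · intro z hz z' _
    rw [(Submodule.mem_bot ℤ).mp hz]
    simp [omega]
  · intro z hz
    rw [(Submodule.mem_bot ℤ).mp hz]
    simp
  · intro z hz
    rw [(Submodule.mem_bot ℤ).mp hz]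
    simp
  · refine ⟨0, ?_⟩
    intro z hz
    rw [(Submodule.mem_bot ℤ).mp hz]
    simp [UnitAddTorus.mFourier, qf]
  · intro n
    rfl

theorem FIN_mFourier_norm {d : Type} [Fintype d] (n : d → ℤ) (x : UnitAddTorus d) :
    ‖UnitAddTorus.mFourier n x‖ = 1 := by
  rw [UnitAddTorus.mFourier]
  simp only [ContinuousMap.coe_mk, norm_prod, fourier_apply, Circle.norm_coe,
    Finset.prod_const_one]

theorem FIN_conv {ι : Type} (S : Set (ι → ℂ)) (J : ℕ) (w : ℕ → ℝ) (hw : ∀ j, 0 ≤ w j)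
    (F : ℕ → ι → ℂ) (hF : ∀ j, F j ∈ convexHull ℝ S) (hpos : 0 < ∑ j ∈ Finset.range J, w j) :
    ∑ j ∈ Finset.range J, (w j / ∑ i ∈ Finset.range J, w i) • F j ∈ convexHull ℝ S := by
  refine (convex_convexHull ℝ S).sum_mem ?_ ?_ ?_
  · intro j _
    exact div_nonneg (hw j) hpos.le
  · rw [← Finset.sum_div, div_self hpos.ne']
  · intro j _
    exact hF j

theorem FIN_est (x : ℂ) (J : ℕ) (w : ℕ → ℝ) (hw : ∀ j, 0 ≤ w j) (f : ℕ → ℂ)
    (hf : ∀ j, ‖f j‖ ≤ 1) (ε : ℝ) (hpos : 0 < ∑ j ∈ Finset.range J, w j)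
    (h1 : ‖x - ∑ j ∈ Finset.range J, ((w j : ℝ) : ℂ) * f j‖ ≤ ε)
    (h2 : |1 - ∑ j ∈ Finset.range J, w j| ≤ ε) :
    ‖x - ∑ j ∈ Finset.range J, (w j / ∑ i ∈ Finset.range J, w i) • f j‖ ≤ ε + ε := by
  set Wt : ℝ := ∑ j ∈ Finset.range J, w j with hWt
  have hd2 : ‖∑ j ∈ Finset.range J, ((w j : ℝ) : ℂ) * f j -
      ∑ j ∈ Finset.range J, (w j / Wt) • f j‖ ≤ ε := by
    rw [← Finset.sum_sub_distrib]
    have h1 : ∀ j ∈ Finset.range J, ‖((w j : ℝ) : ℂ) * f j -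
        (w j / Wt) • f j‖ ≤ (w j / Wt) * |1 - Wt| := by
      intro j _
      have h0 : 0 ≤ w j / Wt := div_nonneg (hw j) hpos.le
      have h2 : ((w j : ℝ) : ℂ) * f j - (w j / Wt) • f j =
          ((-((w j / Wt) * (1 - Wt)) : ℝ) : ℂ) * f j := by
        rw [Complex.real_smul, ← sub_mul, ← Complex.ofReal_sub]
        congr 2
        field_simp
        ring
      rw [h2, norm_mul, Complex.norm_real, norm_neg, norm_mul, Real.norm_eq_abs, Real.norm_eq_abs,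
        abs_of_nonneg h0]
      have h4 : 0 ≤ w j / Wt * |1 - Wt| := mul_nonneg h0 (abs_nonneg _)
      calc w j / Wt * |1 - Wt| * ‖f j‖ ≤ w j / Wt * |1 - Wt| * 1 :=
            mul_le_mul_of_nonneg_left (hf j) h4
        _ = _ := mul_one _
    refine le_trans (norm_sum_le _ _) (le_trans (Finset.sum_le_sum h1) ?_)
    rw [← Finset.sum_mul, ← Finset.sum_div, ← hWt, div_self hpos.ne', one_mul]
    exact h2
  calc _ = ‖(x - ∑ j ∈ Finset.range J, ((w j : ℝ) : ℂ) * f j) +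
        (∑ j ∈ Finset.range J, ((w j : ℝ) : ℂ) * f j -
      ∑ j ∈ Finset.range J, (w j / Wt) • f j)‖ := by congr 1; ring
    _ ≤ _ + _ := norm_add_le _ _
    _ ≤ ε + ε := add_le_add h1 hd2

theorem FIN_spec_inner {H : Type} [NormedAddCommGroup H] [InnerProductSpace ℂ H] {Ξ : Type}
    [Fintype Ξ] (P : Ξ → (H →ₗ[ℂ] H)) (ξ : H) (hsum : ∑ χ, P χ ξ = ξ)
    (horth : ∀ χ χ', χ ≠ χ' → inner ℂ (P χ ξ) (P χ' ξ) = 0) (R : H →ₗ[ℂ] H) (e : Ξ → ℂ)
    (hR : ∀ χ, R (P χ ξ) = e χ • P χ ξ) (η : Ξ) :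
    (inner ℂ (P η ξ) (R ξ) : ℂ) = e η * ((‖P η ξ‖ ^ 2 : ℝ) : ℂ) := by
  have h1 : R ξ = ∑ χ, e χ • P χ ξ := by
    conv_lhs => rw [← hsum]
    rw [map_sum]
    exact Finset.sum_congr rfl fun χ _ => hR χ
  rw [h1, inner_sum, Finset.sum_eq_single η]
  · rw [inner_smul_right, inner_self_eq_norm_sq_to_K]
    push_cast
    rfl
  · intro χ _ hχ
    rw [inner_smul_right, horth η χ (Ne.symm hχ), mul_zero]
  · intro h
    exact absurd (Finset.mem_univ _) h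

theorem FIN_spec_sum {H : Type} [NormedAddCommGroup H] [InnerProductSpace ℂ H] {Ξ : Type}
    [Fintype Ξ] (P : Ξ → (H →ₗ[ℂ] H)) (ξ : H) (hsum : ∑ χ, P χ ξ = ξ)
    (horth : ∀ χ χ', χ ≠ χ' → inner ℂ (P χ ξ) (P χ' ξ) = 0) (R : H →ₗ[ℂ] H) (e : Ξ → ℂ)
    (hR : ∀ χ, R (P χ ξ) = e χ • P χ ξ) :
    (inner ℂ ξ (R ξ) : ℂ) = ∑ η, e η * ((‖P η ξ‖ ^ 2 : ℝ) : ℂ) := by
  have h1 : (inner ℂ ξ (R ξ) : ℂ) = ∑ η, inner ℂ (P η ξ) (R ξ) := by
    rw [← sum_inner, hsum]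
  rw [h1]
  exact Finset.sum_congr rfl fun η _ => FIN_spec_inner P ξ hsum horth R e hR η

/-- the underlying character -/
def FIN_ev {M : ℕ} {L : Type} [AddCommGroup L] (χ : Chi M L) : AddChar L ℂ := χ.1

theorem FIN_scar_norm (g p : ℕ) (A : Matrix (Fin g ⊕ Fin g) (Fin g ⊕ Fin g) ℤ)
    (F : Lat g → ℂ) (hF : F ∈ convexHull ℝ (Scars p A)) (n : Lat g) : ‖F n‖ ≤ 1 := by
  classical
  have h : convexHull ℝ (Scars p A) ⊆ {F : Lat g → ℂ | ‖F n‖ ≤ 1} := by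
    apply convexHull_min
    · rintro f ⟨m, Λ, x, hm, -, -, -, -, -, hf⟩
      change ‖f n‖ ≤ 1
      rw [hf n, norm_mul, norm_inv, Complex.norm_natCast]
      have h1 : ‖∑ t ∈ Finset.range m, (if (A ^ t).mulVec n ∈ Λ then
          UnitAddTorus.mFourier ((A ^ t).mulVec n) x else 0)‖ ≤ m := by
        calc _ ≤ ∑ t ∈ Finset.range m, ‖(if (A ^ t).mulVec n ∈ Λ then
          UnitAddTorus.mFourier ((A ^ t).mulVec n) x else 0)‖ := norm_sum_le _ _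
          _ ≤ ∑ t ∈ Finset.range m, (1 : ℝ) := by
            apply Finset.sum_le_sum
            intro t _
            split_ifs
            · rw [FIN_mFourier_norm]
            · simp
          _ = m := by simp
      have hm' : (0 : ℝ) < m := by exact_mod_cast hm
      calc (m : ℝ)⁻¹ * _ ≤ (m : ℝ)⁻¹ * m := by gcongr
        _ = 1 := inv_mul_cancel₀ hm'.ne'
    · intro f hf f' hf' a b ha hb hab
      change ‖(a • f + b • f') n‖ ≤ 1
      simp only [Pi.add_apply, Pi.smul_apply]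
      calc ‖a • f n + b • f' n‖ ≤ ‖a • f n‖ + ‖b • f' n‖ := norm_add_le _ _
        _ = a * ‖f n‖ + b * ‖f' n‖ := by
          rw [norm_smul, norm_smul, Real.norm_of_nonneg ha, Real.norm_of_nonneg hb]
        _ ≤ a * 1 + b * 1 := by
          have h1 : ‖f n‖ ≤ 1 := hf
          have h2 : ‖f' n‖ ≤ 1 := hf'
          gcongr
        _ = 1 := by linarith
  exact h hF

open Classical in
theorem SC (g p : ℕ) [Fact p.Prime] (hp : p ≠ 2)
    (A : Matrix (Fin g ⊕ Fin g) (Fin g ⊕ Fin g) ℤ)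
    (m Cm : ℕ) (hm : 1 ≤ m)
    (hmod : ∀ z : Lat g, ∃ y, (A ^ m).mulVec z = z + (2 * p ^ Cm) • y)
    (Λ : Submodule ℤ (Lat g)) (hsat : IsSat Λ) (hiso : ∀ z ∈ Λ, ∀ z' ∈ Λ, omega z z' = 0)
    (hinv : ∀ z ∈ Λ, (A ^ m).mulVec z ∈ Λ) (k : ℕ) (hk : Cm ≤ k) (ξ : St g (p ^ k))
    (hξ : ∀ z ∈ Λ, TT ((2 * p ^ Cm) • z) ξ = ξ) :
    ∃ F ∈ convexHull ℝ (Scars p A), ∀ n, (m : ℂ)⁻¹ * ∑ t ∈ Finset.range m,
      (if (A ^ t).mulVec n ∈ Λ then (inner ℂ ξ (TT ((A ^ t).mulVec n) ξ) : ℂ) else 0) =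
        ((‖ξ‖ ^ 2 : ℝ) : ℂ) * F n := by
  have hpp : p.Prime := Fact.out
  obtain ⟨W, hW⟩ := TW g (p ^ k)
  have hadd : ∀ (a b : Λ) (v : St g (p ^ k)),
      TT ((a + b : Λ) : Lat g) v = TT (a : Lat g) (TT (b : Lat g) v) := by
    intro a b v
    have h := WB_add W (a : Lat g) (b : Lat g) (hiso a a.2 b b.2) v
    rw [hW, hW, hW] at h
    exact h
  obtain ⟨P, hP1, hP2, hP3, hP4, hP5⟩ := SP (L := Λ) (2 * p ^ k) (St g (p ^ k))
    (fun z => TT (z : Lat g))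
    (fun v => by have := W.zero v; rw [hW] at this; exact this)
    hadd
    (fun a v => by have := W.norm (a : Lat g) v; rw [hW] at this; exact this)
    (fun a v => by have := W.per (a : Lat g) v; rw [hW] at this; exact this)
  replace hP3 : ∀ (η : Chi (2 * p ^ k) Λ) (a : Λ) (v : St g (p ^ k)),
      TT (a : Lat g) (P η v) = (FIN_ev η) a • P η v := hP3
  have hper0 : ∀ (η : Chi (2 * p ^ k) Λ) (z : Λ), (FIN_ev η) ((2 * p ^ k) • z) = 1 :=
    fun η => η.2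
  -- inner products
  have hin : ∀ (η : Chi (2 * p ^ k) Λ) (a : Λ),
      (inner ℂ (P η ξ) (TT (a : Lat g) ξ) : ℂ) = (FIN_ev η) a * ((‖P η ξ‖ ^ 2 : ℝ) : ℂ) := by
    intro η a
    exact FIN_spec_inner P ξ (hP1 ξ) (fun χ χ' h => hP2 χ χ' h ξ ξ) (TT (a : Lat g))
      (fun χ => (FIN_ev χ) a) (fun χ => hP3 χ a ξ) η
  have hin0 : ∀ (η : Chi (2 * p ^ k) Λ),
      (inner ℂ (P η ξ) ξ : ℂ) = ((‖P η ξ‖ ^ 2 : ℝ) : ℂ) := by
    intro η
    have h1 := hin η 0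
    have h2 : TT ((0 : Λ) : Lat g) ξ = ξ := by have := W.zero ξ; rw [hW] at this; exact this
    rw [h2, AddChar.map_zero_eq_one, one_mul] at h1
    exact h1
  have hwig : ∀ a : Λ, (inner ℂ ξ (TT (a : Lat g) ξ) : ℂ) =
      ∑ η : Chi (2 * p ^ k) Λ, (FIN_ev η) a * ((‖P η ξ‖ ^ 2 : ℝ) : ℂ) := by
    intro a
    exact FIN_spec_sum P ξ (hP1 ξ) (fun χ χ' h => hP2 χ χ' h ξ ξ) (TT (a : Lat g))
      (fun χ => (FIN_ev χ) a) (fun χ => hP3 χ a ξ)
  -- the scar functions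
  obtain ⟨f₀, hf₀⟩ := FIN_scars_nonempty g p A
  have key : ∀ η : Chi (2 * p ^ k) Λ, ∃ f ∈ Scars p A, P η ξ ≠ 0 → ∀ n,
      f n = (m : ℂ)⁻¹ * ∑ t ∈ Finset.range m,
        (if h : (A ^ t).mulVec n ∈ Λ then (FIN_ev η) ⟨(A ^ t).mulVec n, h⟩ else 0) := by
    intro η
    by_cases h0 : P η ξ = 0
    · exact ⟨f₀, hf₀, fun h => absurd h0 h⟩
    have hnz : ((‖P η ξ‖ ^ 2 : ℝ) : ℂ) ≠ 0 := by
      have : ‖P η ξ‖ ≠ 0 := norm_ne_zero_iff.mpr h0
      exact_mod_cast pow_ne_zero 2 this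
    have hη1 : ∀ z : Λ, (FIN_ev η) ((2 * p ^ Cm) • z) = 1 := by
      intro z
      have h1 := hin η ((2 * p ^ Cm) • z)
      have h2 : TT (((2 * p ^ Cm) • z : Λ) : Lat g) ξ = ξ := hξ z z.2
      rw [h2, hin0] at h1
      have h3 : (1 - (FIN_ev η) ((2 * p ^ Cm) • z)) * ((‖P η ξ‖ ^ 2 : ℝ) : ℂ) = 0 := by
        rw [sub_mul, one_mul]
        exact sub_eq_zero.mpr h1
      have h4 := (mul_eq_zero.mp h3).resolve_right hnz
      exact (sub_eq_zero.mp h4).symm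
    have hodd : Odd p := hpp.odd_of_ne_two hp
    have hη2 : ∀ z : Λ, (FIN_ev η) ((p ^ k) • z) = (-1 : ℂ) ^ (qf (z : Lat g)).natAbs := by
      intro z
      have h1 := hP3 η ((p ^ k) • z) ξ
      have h2 : TT (((p ^ k) • z : Λ) : Lat g) (P η ξ) =
          ((-1 : ℂ) ^ (p ^ k * (qf (z : Lat g)).natAbs)) • P η ξ := TW_N g (p ^ k) z (P η ξ)
      rw [h2] at h1
      have h3 := smul_left_injective ℂ h0 h1
      rw [← h3, pow_mul, (hodd.pow).neg_one_pow]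
    have hη3 : ∀ z : Λ, (FIN_ev η) ((p ^ Cm) • z) = (-1 : ℂ) ^ (qf (z : Lat g)).natAbs := by
      intro z
      have h1 : (FIN_ev η) ((p ^ Cm) • z) ^ 2 = 1 := by
        rw [← AddChar.map_nsmul_eq_pow, smul_smul]
        exact hη1 z
      have h2 : (FIN_ev η) ((p ^ Cm) • z) ^ (p ^ (k - Cm)) = (-1 : ℂ) ^ (qf (z : Lat g)).natAbs := by
        rw [← AddChar.map_nsmul_eq_pow, smul_smul, ← pow_add, Nat.sub_add_cancel hk]
        exact hη2 z
      obtain ⟨r, hr⟩ := hodd.pow (n := k - Cm)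
      rw [hr, pow_add, pow_mul, h1, one_pow, one_mul, pow_one] at h2
      exact h2
    obtain ⟨x, hx⟩ := EXT g Λ hsat (FIN_ev η) (2 * p ^ k) (NeZero.ne _) (hper0 η)
    refine ⟨_, ⟨m, Λ, x, hm, hsat, hiso, hinv, ?_, ⟨Cm, ?_⟩, fun n => rfl⟩, ?_⟩
    · intro z hz
      obtain ⟨y, hy⟩ := hmod z
      have hyΛ : y ∈ Λ := by
        have h5 : ((2 * p ^ Cm : ℕ) : ℤ) • y ∈ Λ := by
          have h6 : ((2 * p ^ Cm : ℕ) : ℤ) • y = (A ^ m).mulVec z - z := by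
            rw [hy, natCast_zsmul]; abel
          rw [h6]
          exact Λ.sub_mem (hinv z hz) hz
        refine hsat _ y ?_ h5
        have : 0 < 2 * p ^ Cm := by have := hpp.pos; positivity
        exact_mod_cast this.ne'
      have h7 := hx ⟨(A ^ m).mulVec z, hinv z hz⟩
      have h8 := hx ⟨z, hz⟩
      simp only at h7 h8
      rw [h7, h8]
      have h9 : (⟨(A ^ m).mulVec z, hinv z hz⟩ : Λ) = ⟨z, hz⟩ + (2 * p ^ Cm) • ⟨y, hyΛ⟩ := by
        apply Subtype.ext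
        exact hy
      rw [h9, AddChar.map_add_eq_mul, hη1, mul_one]
    · intro z hz
      have h7 := hx ((p ^ Cm) • ⟨z, hz⟩)
      have h8 : (((p ^ Cm) • (⟨z, hz⟩ : Λ) : Λ) : Lat g) = (p ^ Cm) • z := rfl
      rw [h8] at h7
      rw [h7, hη3]
    · intro _ n
      congr 1
      apply Finset.sum_congr rfl
      intro t _
      by_cases h : (A ^ t).mulVec n ∈ Λ
      · rw [if_pos h, dif_pos h]
        exact hx ⟨_, h⟩
      · rw [if_neg h, dif_neg h]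
  choose f hf1 hf2 using key
  have hLHS : ∀ n, (m : ℂ)⁻¹ * ∑ t ∈ Finset.range m,
      (if (A ^ t).mulVec n ∈ Λ then (inner ℂ ξ (TT ((A ^ t).mulVec n) ξ) : ℂ) else 0) =
      ∑ η : Chi (2 * p ^ k) Λ, ((‖P η ξ‖ ^ 2 : ℝ) : ℂ) * f η n := by
    intro n
    have h1 : ∀ t ∈ Finset.range m,
        (if (A ^ t).mulVec n ∈ Λ then (inner ℂ ξ (TT ((A ^ t).mulVec n) ξ) : ℂ) else 0) =
        ∑ η : Chi (2 * p ^ k) Λ, ((‖P η ξ‖ ^ 2 : ℝ) : ℂ) *
          (if h : (A ^ t).mulVec n ∈ Λ then (FIN_ev η) ⟨(A ^ t).mulVec n, h⟩ else 0) := by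
      intro t _
      by_cases h : (A ^ t).mulVec n ∈ Λ
      · rw [if_pos h, hwig ⟨_, h⟩]
        apply Finset.sum_congr rfl
        intro η _
        rw [dif_pos h, mul_comm]
      · rw [if_neg h]
        symm
        apply Finset.sum_eq_zero
        intro η _
        rw [dif_neg h, mul_zero]
    rw [Finset.sum_congr rfl h1, Finset.sum_comm, Finset.mul_sum]
    apply Finset.sum_congr rfl
    intro η _
    by_cases h0 : P η ξ = 0
    · rw [h0]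
      simp
    · rw [hf2 η h0 n, ← Finset.mul_sum]
      ring
  by_cases hξ0 : ξ = 0
  · refine ⟨f₀, subset_convexHull ℝ _ hf₀, ?_⟩
    intro n
    rw [hξ0]
    simp
  have hξpos : 0 < ‖ξ‖ ^ 2 := by
    have := norm_pos_iff.mpr hξ0
    positivity
  refine ⟨∑ η, (‖P η ξ‖ ^ 2 / ‖ξ‖ ^ 2) • f η, ?_, ?_⟩
  · refine (convex_convexHull ℝ (Scars p A)).sum_mem ?_ ?_ ?_
    · intro η _
      positivity
    · rw [← Finset.sum_div, hP5 ξ, div_self hξpos.ne']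
    · intro η _
      exact subset_convexHull ℝ _ (hf1 η)
  · intro n
    rw [hLHS n, Finset.sum_apply, Finset.mul_sum]
    apply Finset.sum_congr rfl
    intro η _
    rw [Pi.smul_apply, Complex.real_smul, ← mul_assoc, ← Complex.ofReal_mul]
    congr 2
    field_simp

open Classical in
theorem FIN (g p : ℕ) [Fact p.Prime] (hp : p ≠ 2)
    (A : Matrix (Fin g ⊕ Fin g) (Fin g ⊕ Fin g) ℤ) (hA : A ∈ Matrix.symplecticGroup (Fin g) ℤ)
    (herg : ∀ m : ℕ, 0 < m → ∀ z : Lat g, (A ^ m).mulVec z = z → z = 0)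
    (s : Finset (Lat g)) (ε : ℝ) (hε : 0 < ε) :
    ∃ k₀ : ℕ, ∀ k, k₀ ≤ k → ∀ (U : St g (p ^ k) ≃ₗᵢ[ℂ] St g (p ^ k)) (ψ : St g (p ^ k)) (c : ℂ),
      IsQuant A U → ‖ψ‖ = 1 → U ψ = c • ψ → ∃ F ∈ convexHull ℝ (Scars p A),
        ∀ n ∈ s, ‖(inner ℂ ψ (TT n ψ) : ℂ) - F n‖ ≤ ε := by
  obtain ⟨Ae, hAe1, hAe2, hAe3⟩ := AE g A hA
  set ε' : ℝ := min (ε / 2) (1 / 2) with hε'
  have hε'pos : 0 < ε' := by positivity
  have hε'1 : ε' ≤ ε / 2 := min_le_left _ _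
  have hε'2 : ε' ≤ 1 / 2 := min_le_right _ _
  have hErg : Erg Ae := by
    intro m hm z hz
    rw [hAe1] at hz
    exact herg m hm z hz
  obtain ⟨m₀, J, Lm, Cm, k₀, hm₀, hsat, hiso, hinv, hmain⟩ :=
    FIN1 p hp (omB g) (fun z => by
      change omega z z = 0
      simp only [omega]
      exact Finset.sum_eq_zero fun i _ => by ring) Ae (fun x y => hAe3 x y) hErg s ε' hε'pos
  have hp1 : 1 ≤ p := (Fact.out : p.Prime).one_lt.le
  obtain ⟨m₁, hm₁, hper⟩ := PER (Ae ^ m₀) (2 * p ^ Cm) (by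
    have := Nat.one_le_pow Cm p hp1
    omega)
  set m : ℕ := m₀ * m₁ with hm
  have hm1 : 1 ≤ m := Nat.one_le_iff_ne_zero.mpr (Nat.mul_ne_zero (by omega) (by omega))
  have hmod : ∀ z : Lat g, ∃ y, (A ^ m).mulVec z = z + (2 * p ^ Cm) • y := by
    intro z
    obtain ⟨y, hy⟩ := hper z
    refine ⟨y, ?_⟩
    rw [← pow_mul, hAe1] at hy
    exact hy
  have hinvm : ∀ j < J, ∀ z ∈ Lm j, (A ^ m).mulVec z ∈ Lm j := by
    intro j hj z hz
    rw [← hAe1, hm, pow_mul]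
    clear_value m
    clear hper hmod hm
    induction m₁ with
    | zero => omega
    | succ r ih =>
      by_cases hr : 1 ≤ r
      · have h1 := hinv j hj _ (ih hr)
        rw [pow_succ']
        exact h1
      · have : r = 0 := by omega
        subst this
        simpa using hinv j hj z hz
  refine ⟨max k₀ Cm, ?_⟩
  intro k hk U ψ c hU hψ hc
  obtain ⟨W, hW⟩ := TW g (p ^ k)
  have hU' : ∀ m v, W.T m (U v) = U (W.T (Ae m) v) := by
    intro n v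
    rw [hW, hW, hAe2]
    exact hU n v
  obtain ⟨ξ, hξ1, hξ2, hξ3⟩ := hmain k (le_trans (le_max_left _ _) hk) (St g (p ^ k)) W U ψ c
    hU' hψ hc
  have hSC : ∀ j : ℕ, ∃ F ∈ convexHull ℝ (Scars p A), j < J → ∀ n,
      (m : ℂ)⁻¹ * ∑ t ∈ Finset.range m,
      (if (A ^ t).mulVec n ∈ Lm j then (inner ℂ (ξ j) (TT ((A ^ t).mulVec n) (ξ j)) : ℂ) else 0) =
        ((‖ξ j‖ ^ 2 : ℝ) : ℂ) * F n := by
    intro j
    by_cases hj : j < J
    · obtain ⟨F, hF1, hF2⟩ := SC g p hp A m Cm hm1 hmod (Lm j) (hsat j hj)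
        (fun z hz z' hz' => hiso j hj z hz z' hz') (hinvm j hj) k (le_trans (le_max_right _ _) hk)
        (ξ j) (fun z hz => by
          have := hξ1 j hj z hz
          rwa [hW] at this)
      exact ⟨F, hF1, fun _ => hF2⟩
    · obtain ⟨f₀, hf₀⟩ := FIN_scars_nonempty g p A
      exact ⟨f₀, subset_convexHull ℝ _ hf₀, fun h => absurd h hj⟩
  choose Fj hFj1 hFj2 using hSC
  set Wt : ℝ := ∑ j ∈ Finset.range J, ‖ξ j‖ ^ 2 with hWt
  have hWt1 : |1 - Wt| ≤ ε' := hξ2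
  have hWtpos : 0 < Wt := by
    have := abs_le.mp hWt1
    linarith
  refine ⟨∑ j ∈ Finset.range J, (‖ξ j‖ ^ 2 / Wt) • Fj j, ?_, ?_⟩
  · exact FIN_conv (Scars p A) J (fun j => ‖ξ j‖ ^ 2) (fun j => sq_nonneg _) Fj hFj1 hWtpos
  intro n hn
  -- average over the orbit
  have hmne : (m : ℂ) ≠ 0 := by
    have : m ≠ 0 := by omega
    exact_mod_cast this
  have hphi : ∀ t, (inner ℂ ψ (TT ((A ^ t).mulVec n) ψ) : ℂ) = inner ℂ ψ (TT n ψ) := by
    intro t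
    have := FIN_phi_inv W Ae U hU' ψ hψ c hc t n
    rw [hW, hW, hAe1] at this
    exact this
  have havg : (inner ℂ ψ (TT n ψ) : ℂ) = (m : ℂ)⁻¹ * ∑ t ∈ Finset.range m,
      (inner ℂ ψ (TT ((A ^ t).mulVec n) ψ) : ℂ) := by
    rw [Finset.sum_congr rfl (fun t _ => hphi t)]
    simp only [Finset.sum_const, Finset.card_range, nsmul_eq_mul]
    rw [inv_mul_cancel_left₀ hmne]
  have hG : ∑ j ∈ Finset.range J, ((‖ξ j‖ ^ 2 : ℝ) : ℂ) * Fj j n = (m : ℂ)⁻¹ *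
      ∑ t ∈ Finset.range m, ∑ j ∈ Finset.range J with (A ^ t).mulVec n ∈ Lm j,
        (inner ℂ (ξ j) (TT ((A ^ t).mulVec n) (ξ j)) : ℂ) := by
    have h1 : ∀ t ∈ Finset.range m, ∑ j ∈ Finset.range J with (A ^ t).mulVec n ∈ Lm j,
        (inner ℂ (ξ j) (TT ((A ^ t).mulVec n) (ξ j)) : ℂ) = ∑ j ∈ Finset.range J,
        (if (A ^ t).mulVec n ∈ Lm j then (inner ℂ (ξ j) (TT ((A ^ t).mulVec n) (ξ j)) : ℂ)
          else 0) := by
      intro t _
      rw [Finset.sum_filter]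
    rw [Finset.sum_congr rfl h1, Finset.sum_comm, Finset.mul_sum]
    apply Finset.sum_congr rfl
    intro j hj
    exact (hFj2 j (Finset.mem_range.mp hj) n).symm
  have hd1 : ‖(inner ℂ ψ (TT n ψ) : ℂ) -
      ∑ j ∈ Finset.range J, ((‖ξ j‖ ^ 2 : ℝ) : ℂ) * Fj j n‖ ≤ ε' := by
    rw [havg, hG, ← mul_sub, ← Finset.sum_sub_distrib, norm_mul, norm_inv, Complex.norm_natCast]
    have hmpos : (0 : ℝ) < m := by exact_mod_cast hm1
    have h1 : ‖∑ t ∈ Finset.range m, ((inner ℂ ψ (TT ((A ^ t).mulVec n) ψ) : ℂ) -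
        ∑ j ∈ Finset.range J with (A ^ t).mulVec n ∈ Lm j,
        (inner ℂ (ξ j) (TT ((A ^ t).mulVec n) (ξ j)) : ℂ))‖ ≤ ∑ t ∈ Finset.range m, ε' := by
      refine le_trans (norm_sum_le _ _) (Finset.sum_le_sum ?_)
      intro t _
      have h2 := hξ3 n hn t
      rw [hW, hAe1] at h2
      exact h2
    rw [Finset.sum_const, Finset.card_range, nsmul_eq_mul] at h1
    calc (m : ℝ)⁻¹ * _ ≤ (m : ℝ)⁻¹ * (m * ε') := by gcongr
      _ = ε' := by field_simp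
  have hfin := FIN_est (inner ℂ ψ (TT n ψ)) J (fun j => ‖ξ j‖ ^ 2) (fun j => sq_nonneg _)
    (fun j => Fj j n) (fun j => FIN_scar_norm g p A (Fj j) (hFj1 j) n) ε' hWtpos hd1 hWt1
  rw [Finset.sum_apply]
  refine le_trans hfin ?_
  linarith

end

end Pool.Agent.helper86.CM
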