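import Pool.Agent.helper86.CM.FinC
import Pool.Agent.helper35.CM.CL
import Pool.Agent.helper86.CM.DIAG
import Pool.Agent.helper35.CM.MEC

open scoped BigOperators

namespace Pool.Agent.helper86.CM

noncomputable section

set_option linter.unusedSectionVars false

/-- forward direction: limits are in the closed convex hull of the scars -/
theorem FINAL_fwd (g p : ℕ) [Fact p.Prime] (hp : p ≠ 2)
    (A : Matrix (Fin g ⊕ Fin g) (Fin g ⊕ Fin g) ℤ) (hA : A ∈ Matrix.symplecticGroup (Fin g) ℤ)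
    (herg : ∀ m : ℕ, 0 < m → ∀ z : Lat g, (A ^ m).mulVec z = z → z = 0)
    (F : Lat g → ℂ) (hF : IsLimit p A F) : F ∈ closure (convexHull ℝ (Scars p A)) := by
  obtain ⟨k, U, ψ, c, hk, hU, hψ, hc, hlim⟩ := hF
  rw [CL]
  intro s ε hε
  obtain ⟨k₀, hk₀⟩ := FIN g p hp A hA herg s (ε / 2) (by positivity)
  have h1 : ∀ᶠ j in Filter.atTop, k₀ ≤ k j := hk.eventually_ge_atTop k₀
  have h2 : ∀ᶠ j in Filter.atTop, ∀ n ∈ s, ‖(inner ℂ (ψ j) (TT n (ψ j)) : ℂ) - F n‖ < ε / 2 := by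
    rw [Filter.eventually_all_finset]
    intro n _
    have := (hlim n).eventually (Metric.ball_mem_nhds (F n) (by positivity : 0 < ε / 2))
    filter_upwards [this] with j hj
    rwa [dist_eq_norm] at hj
  obtain ⟨j, hj1, hj2⟩ := (h1.and h2).exists
  obtain ⟨G, hG1, hG2⟩ := hk₀ (k j) hj1 (U j) (ψ j) (c j) (hU j) (hψ j) (hc j)
  refine ⟨G, hG1, ?_⟩
  intro n hn
  have h3 := hG2 n hn
  have h4 := hj2 n hn
  calc ‖F n - G n‖ = ‖((inner ℂ (ψ j) (TT n (ψ j)) : ℂ) - G n) -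
        ((inner ℂ (ψ j) (TT n (ψ j)) : ℂ) - F n)‖ := by congr 1; ring
    _ ≤ _ + _ := norm_sub_le _ _
    _ ≤ ε / 2 + ε / 2 := add_le_add h3 h4.le
    _ = ε := by ring

theorem qf_zero_of_bot {g : ℕ} : qf (0 : Lat g) = 0 := by simp [qf]

/-- on an isotropic lattice, `(-1)^q` is a character -/
theorem FINAL_char {g : ℕ} (Λ : Submodule ℤ (Lat g))
    (hiso : ∀ z ∈ Λ, ∀ z' ∈ Λ, omega z z' = 0) :
    ∃ η : AddChar Λ ℂ, ∀ z : Λ, η z = (-1 : ℂ) ^ (qf (z : Lat g)).natAbs := by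
  have hq : ∀ z z' : Lat g, qf (z + z') = qf z + qf z' + omega z z' +
      2 * ∑ i, z (Sum.inr i) * z' (Sum.inl i) := by
    intro z z'
    simp only [qf, omega, Pi.add_apply, Finset.mul_sum, ← Finset.sum_add_distrib]
    exact Finset.sum_congr rfl fun i _ => by ring
  have hpar : ∀ a b : ℤ, (2 : ℤ) ∣ a - b → (-1 : ℂ) ^ a.natAbs = (-1 : ℂ) ^ b.natAbs := by
    intro a b h
    have h1 : (Even a.natAbs ↔ Even b.natAbs) := by
      rw [Int.natAbs_even, Int.natAbs_even]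
      have h2 := even_iff_two_dvd.mpr h
      rw [Int.even_sub] at h2
      exact h2
    rcases Nat.even_or_odd a.natAbs with ha | ha
    · rw [ha.neg_one_pow, (h1.mp ha).neg_one_pow]
    · have hb : Odd b.natAbs := by
        rw [← Nat.not_even_iff_odd] at ha ⊢
        exact fun h' => ha (h1.mpr h')
      rw [ha.neg_one_pow, hb.neg_one_pow]
  refine ⟨⟨fun z => (-1 : ℂ) ^ (qf (z : Lat g)).natAbs, by simp [qf], ?_⟩, fun z => rfl⟩
  intro a b
  rw [← pow_add]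
  have h1 : (-1 : ℂ) ^ (qf ((a + b : Λ) : Lat g)).natAbs =
      (-1 : ℂ) ^ (qf (a : Lat g) + qf (b : Lat g)).natAbs := by
    apply hpar
    rw [Submodule.coe_add, hq, hiso a a.2 b b.2]
    exact ⟨∑ i, (a : Lat g) (Sum.inr i) * (b : Lat g) (Sum.inl i), by ring⟩
  rw [h1]
  have h2 : ∀ x y : ℤ, (-1 : ℂ) ^ (x + y).natAbs = (-1 : ℂ) ^ (x.natAbs + y.natAbs) := by
    intro x y
    have h3 : (Even (x + y).natAbs ↔ Even (x.natAbs + y.natAbs)) := by
      rw [Int.natAbs_even, Int.even_add, Nat.even_add, Int.natAbs_even, Int.natAbs_even]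
    rcases Nat.even_or_odd (x + y).natAbs with ha | ha
    · rw [ha.neg_one_pow, (h3.mp ha).neg_one_pow]
    · have hb : Odd (x.natAbs + y.natAbs) := by
        rw [← Nat.not_even_iff_odd] at ha ⊢
        exact fun h' => ha (h3.mpr h')
      rw [ha.neg_one_pow, hb.neg_one_pow]
  exact h2 _ _

theorem FINAL_qf_pow {g : ℕ} (A : Matrix (Fin g ⊕ Fin g) (Fin g ⊕ Fin g) ℤ)
    (hq : ∀ n : Lat g, (2 : ℤ) ∣ qf (A.mulVec n) - qf n) (t : ℕ) (n : Lat g) :
    (-1 : ℂ) ^ (qf ((A ^ t).mulVec n)).natAbs = (-1 : ℂ) ^ (qf n).natAbs := by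
  have h0 : (2 : ℤ) ∣ qf ((A ^ t).mulVec n) - qf n := by
    induction t with
    | zero => simp
    | succ t ih =>
      rw [pow_succ', ← Matrix.mulVec_mulVec]
      have h1 := hq ((A ^ t).mulVec n)
      have := dvd_add h1 ih
      rwa [sub_add_sub_cancel] at this
  have h1 : (Even (qf ((A ^ t).mulVec n)).natAbs ↔ Even (qf n).natAbs) := by
    rw [Int.natAbs_even, Int.natAbs_even]
    have h2 := even_iff_two_dvd.mpr h0
    rw [Int.even_sub] at h2
    exact h2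
  rcases Nat.even_or_odd (qf ((A ^ t).mulVec n)).natAbs with ha | ha
  · rw [ha.neg_one_pow, (h1.mp ha).neg_one_pow]
  · have hb : Odd (qf n).natAbs := by
      rw [← Nat.not_even_iff_odd] at ha ⊢
      exact fun h' => ha (h1.mpr h')
    rw [ha.neg_one_pow, hb.neg_one_pow]

/-- a nonzero invariant isotropic lattice carries a nontrivial scar -/
theorem FINAL_scar (g p : ℕ) [Fact p.Prime] (hp : p ≠ 2)
    (A : Matrix (Fin g ⊕ Fin g) (Fin g ⊕ Fin g) ℤ)
    (hq : ∀ n : Lat g, (2 : ℤ) ∣ qf (A.mulVec n) - qf n)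
    (m : ℕ) (hm : 0 < m) (Λ : Submodule ℤ (Lat g)) (hsat : IsSat Λ)
    (hiso : ∀ z ∈ Λ, ∀ z' ∈ Λ, omega z z' = 0) (hinv : ∀ z ∈ Λ, (A ^ m).mulVec z ∈ Λ) :
    ∃ F ∈ Scars p A, ∀ n ∈ Λ, F n ≠ 0 := by
  classical
  obtain ⟨η, hη⟩ := FINAL_char Λ hiso
  have hη2 : ∀ z : Λ, η (2 • z) = 1 := by
    intro z
    rw [AddChar.map_nsmul_eq_pow, hη, ← pow_mul, mul_comm, pow_mul]
    simp
  obtain ⟨x, hx⟩ := EXT g Λ hsat η 2 (by norm_num) hη2
  have hx' : ∀ z ∈ Λ, UnitAddTorus.mFourier z x = (-1 : ℂ) ^ (qf z).natAbs := by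
    intro z hz
    have := hx ⟨z, hz⟩
    rw [hη] at this
    exact this
  have hodd : Odd p := (Fact.out : p.Prime).odd_of_ne_two hp
  refine ⟨fun n => (m : ℂ)⁻¹ * ∑ t ∈ Finset.range m,
      (open Classical in if (A ^ t).mulVec n ∈ Λ then
        UnitAddTorus.mFourier ((A ^ t).mulVec n) x else 0),
    ⟨m, Λ, x, hm, hsat, hiso, hinv, ?_, ⟨0, ?_⟩, fun n => rfl⟩, ?_⟩
  · intro z hz
    rw [hx' _ (hinv z hz), hx' z hz, FINAL_qf_pow A hq]
  · intro z hz
    rw [pow_zero, one_smul, hx' z hz]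
  · intro n hn
    have hmne : (m : ℂ) ≠ 0 := by exact_mod_cast hm.ne'
    refine mul_ne_zero (inv_ne_zero hmne) ?_
    have h1 : ∀ t ∈ Finset.range m, (open Classical in if (A ^ t).mulVec n ∈ Λ then
        UnitAddTorus.mFourier ((A ^ t).mulVec n) x else 0) =
        (-1 : ℂ) ^ (qf n).natAbs * (if (A ^ t).mulVec n ∈ Λ then 1 else 0) := by
      intro t _
      by_cases h : (A ^ t).mulVec n ∈ Λ
      · rw [if_pos h, if_pos h, hx' _ h, FINAL_qf_pow A hq, mul_one]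
      · rw [if_neg h, if_neg h, mul_zero]
    rw [Finset.sum_congr rfl h1, ← Finset.mul_sum]
    refine mul_ne_zero (pow_ne_zero _ (by norm_num)) ?_
    rw [Finset.sum_boole]
    have h2 : 0 < ((Finset.range m).filter (fun t => (A ^ t).mulVec n ∈ Λ)).card := by
      apply Finset.card_pos.mpr
      refine ⟨0, ?_⟩
      simp only [Finset.mem_filter, Finset.mem_range]
      exact ⟨hm, by simpa using hn⟩
    exact_mod_cast h2.ne'

theorem FINAL (g p : ℕ) [Fact p.Prime] (hp : p ≠ 2)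
    (A : Matrix (Fin g ⊕ Fin g) (Fin g ⊕ Fin g) ℤ) (hA : A ∈ Matrix.symplecticGroup (Fin g) ℤ)
    (hq : ∀ n : Lat g, (2 : ℤ) ∣ qf (A.mulVec n) - qf n)
    (herg : ∀ m : ℕ, 0 < m → ∀ z : Lat g, (A ^ m).mulVec z = z → z = 0) :
    (∀ F : Lat g → ℂ, IsLimit p A F ↔ F ∈ closure (convexHull ℝ (Scars p A))) ∧
    (∀ F : Lat g → ℂ, IsLimit p A F →
      ∃ μ : MeasureTheory.Measure (UnitAddTorus (Fin g ⊕ Fin g)),
        MeasureTheory.IsProbabilityMeasure μ ∧
          ∀ n : Lat g, ∫ y, UnitAddTorus.mFourier n y ∂μ = F n) ∧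
    ((∀ F : Lat g → ℂ, IsLimit p A F → ∀ n : Lat g, n ≠ 0 → F n = 0) ↔
      ∀ m : ℕ, 0 < m → ∀ Λ : Submodule ℤ (Lat g), IsSat Λ →
        (∀ z ∈ Λ, ∀ z' ∈ Λ, omega z z' = 0) → (∀ z ∈ Λ, (A ^ m).mulVec z ∈ Λ) → Λ = ⊥) := by
  have h1 : ∀ F : Lat g → ℂ, IsLimit p A F ↔ F ∈ closure (convexHull ℝ (Scars p A)) :=
    fun F => ⟨FINAL_fwd g p hp A hA herg F, DIAG g p hp A hA hq F⟩
  refine ⟨h1, fun F hF => MEC g p A F ((h1 F).mp hF), ?_, ?_⟩
  · intro h m hm Λ hsat hiso hinv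
    by_contra hne
    obtain ⟨z, hz, hz0⟩ := Submodule.exists_mem_ne_zero_of_ne_bot hne
    obtain ⟨F, hF, hFz⟩ := FINAL_scar g p hp A hq m hm Λ hsat hiso hinv
    exact hFz z hz (h F ((h1 F).mpr (subset_closure (subset_convexHull ℝ _ hF))) z hz0)
  · intro h F hF n hn
    have hsc : Scars p A ⊆ {G : Lat g → ℂ | G n = 0} := by
      rintro f ⟨m, Λ, x, hm, hsat, hiso, hinv, -, -, hf⟩
      change f n = 0
      have hbot := h m hm Λ hsat hiso hinv
      rw [hf n, hbot]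
      have h2 : ∀ t ∈ Finset.range m, (open Classical in
          if (A ^ t).mulVec n ∈ (⊥ : Submodule ℤ (Lat g)) then
          UnitAddTorus.mFourier ((A ^ t).mulVec n) x else (0 : ℂ)) = 0 := by
        intro t _
        rw [if_neg]
        intro h3
        rw [Submodule.mem_bot] at h3
        obtain ⟨Ae, hAe1, -, -⟩ := AE g A hA
        rw [← hAe1] at h3
        exact hn ((LinearEquiv.map_eq_zero_iff _).mp h3)
      rw [Finset.sum_eq_zero h2, mul_zero]
    have hcl : closure (convexHull ℝ (Scars p A)) ⊆ {G : Lat g → ℂ | G n = 0} := by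
      apply closure_minimal
      · apply convexHull_min hsc
        intro f hf f' hf' a b _ _ _
        have h3 : f n = 0 := hf
        have h4 : f' n = 0 := hf'
        change (a • f + b • f') n = 0
        simp [h3, h4]
      · exact isClosed_eq (continuous_apply n) continuous_const
    exact hcl ((h1 F).mp hF)

end

end Pool.Agent.helper86.CM
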