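import Pool.Agent.helper86.CM.FinD
import Pool.Agent.helper86.CM.Defs3

open scoped BigOperators

namespace Pool.Agent.helper86.CM

noncomputable section

theorem ScarSet_eq {g : ℕ} (p : ℕ) (A : Matrix (Fin g ⊕ Fin g) (Fin g ⊕ Fin g) ℤ) :
    ScarSet p A = Scars p A := by
  ext F
  constructor
  · rintro ⟨m, Λ, x, hm, ⟨h1, h2, h3⟩, h4, h5, rfl⟩
    exact ⟨m, Λ, x, hm, h1, h2, h3, h4, h5, fun _ => rfl⟩
  · rintro ⟨m, Λ, x, hm, h1, h2, h3, h4, h5, h6⟩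
    exact ⟨m, Λ, x, hm, ⟨h1, h2, h3⟩, h4, h5, funext h6⟩

theorem IsWignerLimit_iff {g : ℕ} (p : ℕ) [Fact p.Prime]
    (A : Matrix (Fin g ⊕ Fin g) (Fin g ⊕ Fin g) ℤ) (F : Lat g → ℂ) :
    IsWignerLimit p A F ↔ IsLimit p A F := by
  constructor
  · rintro ⟨k, W, hk, hW, hlim⟩
    choose U ψ c h1 h2 h3 h4 using hW
    refine ⟨k, U, ψ, c, hk, ?_, h2, h3, ?_⟩
    · intro j n v
      have := h1 j n v
      simp only [act, pow_one] at this
      exact this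
    · intro n
      have := hlim n
      simp only [h4] at this
      exact this
  · rintro ⟨k, U, ψ, c, hk, h1, h2, h3, h4⟩
    refine ⟨k, fun j n => inner ℂ (ψ j) (TT n (ψ j)), hk, ?_, h4⟩
    intro j
    refine ⟨U j, ψ j, c j, ?_, h2 j, h3 j, fun _ => rfl⟩
    intro n v
    simp only [act, pow_one]
    exact h1 j n v

theorem FINAL' (g p : ℕ) [Fact p.Prime] (hp : p ≠ 2)
    (A : Matrix (Fin g ⊕ Fin g) (Fin g ⊕ Fin g) ℤ) (hA : A ∈ Matrix.symplecticGroup (Fin g) ℤ)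
    (hq : ∀ n : Lat g, (2 : ℤ) ∣ qf (act A 1 n) - qf n)
    (herg : ∀ m : ℕ, 0 < m → ∀ z : Lat g, act A m z = z → z = 0) :
    (∀ F : Lat g → ℂ, IsWignerLimit p A F ↔ F ∈ closure (convexHull ℝ (ScarSet p A))) ∧
    (∀ F : Lat g → ℂ, IsWignerLimit p A F → IsTransform F) ∧
    ((∀ F : Lat g → ℂ, IsWignerLimit p A F → ∀ n : Lat g, n ≠ 0 → F n = 0) ↔
      ∀ m : ℕ, 0 < m → ∀ Λ : Submodule ℤ (Lat g), IsInvIso A m Λ → Λ = ⊥) := by
  have hq' : ∀ n : Lat g, (2 : ℤ) ∣ qf (A.mulVec n) - qf n := by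
    intro n
    have := hq n
    simp only [act, pow_one] at this
    exact this
  obtain ⟨h1, h2, h3⟩ := FINAL g p hp A hA hq' herg
  simp only [IsWignerLimit_iff, ScarSet_eq]
  refine ⟨h1, h2, h3.trans ?_⟩
  constructor
  · rintro h m hm Λ ⟨ha, hb, hc⟩
    exact h m hm Λ ha hb hc
  · intro h m hm Λ ha hb hc
    exact h m hm Λ ⟨ha, hb, hc⟩

end

end Pool.Agent.helper86.CM
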